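import Mathlib

/-!
Abstract lemmas on uniformly random orderings of a finite set.
-/

namespace Pool.Agent.H362R3

open Finset

set_option autoImplicit false

variable {E : Type} [Fintype E] [DecidableEq E] {N : ℕ}

/-- Composition with a transposition of positions, as a permutation of the orderings. -/
def swapPos (i j : Fin N) : (Fin N ≃ E) ≃ (Fin N ≃ E) where
  toFun σ := (Equiv.swap i j).trans σ
  invFun σ := (Equiv.swap i j).trans σ
  left_inv σ := by
    ext x
    simp
  right_inv σ := by
    ext x
    simp

/-- Composition with a transposition of values, as a permutation of the orderings. -/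
def swapVal (a b : E) : (Fin N ≃ E) ≃ (Fin N ≃ E) where
  toFun σ := σ.trans (Equiv.swap a b)
  invFun σ := σ.trans (Equiv.swap a b)
  left_inv σ := by
    ext x
    simp
  right_inv σ := by
    ext x
    simp

/-- One-step averaging. -/
theorem sum_le_of_step (i : Fin N) (V W : (Fin N ≃ E) → ℝ)
    (h : ∀ σ : Fin N ≃ E, ∑ j ∈ Finset.Ici i, V ((Equiv.swap i j).trans σ)
      ≤ ((N - (i : ℕ) : ℕ) : ℝ) * W σ) :
    ∑ σ, V σ ≤ ∑ σ, W σ := by
  have h1 : ∑ σ : Fin N ≃ E, ∑ j ∈ Finset.Ici i, V ((Equiv.swap i j).trans σ)
      = ((N - (i : ℕ) : ℕ) : ℝ) * ∑ σ, V σ := by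
    rw [Finset.sum_comm]
    have h2 : ∀ j ∈ Finset.Ici i, ∑ σ : Fin N ≃ E, V ((Equiv.swap i j).trans σ) = ∑ σ, V σ := by
      intro j _
      exact Equiv.sum_comp (swapPos (E := E) i j) V
    rw [Finset.sum_congr rfl h2, Finset.sum_const, Fin.card_Ici, nsmul_eq_mul]
  have h3 : ∑ σ : Fin N ≃ E, ∑ j ∈ Finset.Ici i, V ((Equiv.swap i j).trans σ)
      ≤ ((N - (i : ℕ) : ℕ) : ℝ) * ∑ σ, W σ := by
    rw [Finset.mul_sum]
    exact Finset.sum_le_sum (fun σ _ => h σ)
  rw [h1] at h3
  have hpos : (0 : ℝ) < ((N - (i : ℕ) : ℕ) : ℝ) := by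
    have := i.2
    exact_mod_cast Nat.sub_pos_of_lt this
  exact le_of_mul_le_mul_left h3 hpos

/-- The orderings in which all of `F` is among the first `t` entries. -/
def early (t : ℕ) (F : Finset E) : Finset (Fin N ≃ E) :=
  Finset.univ.filter (fun σ => ∀ e ∈ F, ((σ.symm e : Fin N) : ℕ) < t)

theorem card_early_insert (t : ℕ) (F : Finset E) (e : E) (he : e ∉ F)
    (hN : Fintype.card E = N) :
    N * (early (N := N) t (insert e F)).card ≤ t * (early (N := N) t F).card := by
  classical
  have key : ∀ e' : E, (early (N := N) t (insert e F)).card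
      ≤ ((early (N := N) t F).filter (fun σ => ((σ.symm e' : Fin N) : ℕ) < t)).card := by
    intro e'
    by_cases h : e' ∈ F
    · apply Finset.card_le_card
      intro σ hσ
      simp only [early, Finset.mem_filter, Finset.mem_univ, true_and, Finset.mem_insert] at hσ ⊢
      exact ⟨fun x hx => hσ x (Or.inr hx), hσ e' (Or.inr h)⟩
    · apply Finset.card_le_card_of_injOn (swapVal (N := N) e e')
      · intro σ hσ
        simp only [early, Finset.coe_filter, Finset.mem_filter, Finset.mem_univ, true_and,
          Finset.mem_insert, Set.mem_setOf_eq] at hσ ⊢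
        refine ⟨fun x hx => ?_, ?_⟩
        · have hx1 : x ≠ e := fun hh => he (hh ▸ hx)
          have hx2 : x ≠ e' := fun hh => h (hh ▸ hx)
          have : ((swapVal (N := N) e e') σ).symm x = σ.symm x := by
            simp [swapVal, Equiv.swap_apply_of_ne_of_ne hx1 hx2]
          rw [this]
          exact hσ x (Or.inr hx)
        · have : ((swapVal (N := N) e e') σ).symm e' = σ.symm e := by
            simp [swapVal]
          rw [this]
          exact hσ e (Or.inl rfl)
      · exact (swapVal (N := N) e e').injective.injOn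
  have h1 : ∑ _e' : E, (early (N := N) t (insert e F)).card
      ≤ ∑ e' : E, ((early (N := N) t F).filter
          (fun σ => ((σ.symm e' : Fin N) : ℕ) < t)).card :=
    Finset.sum_le_sum (fun e' _ => key e')
  rw [Finset.sum_const, Finset.card_univ, hN, smul_eq_mul] at h1
  refine h1.trans ?_
  have h2 : ∑ e' : E, ((early (N := N) t F).filter
          (fun σ => ((σ.symm e' : Fin N) : ℕ) < t)).card
      = ∑ σ ∈ early (N := N) t F,
          (Finset.univ.filter (fun e' : E => ((σ.symm e' : Fin N) : ℕ) < t)).card := by
    simp only [Finset.card_filter]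
    rw [Finset.sum_comm]
  rw [h2]
  have h3 : ∀ σ ∈ early (N := N) t F,
      (Finset.univ.filter (fun e' : E => ((σ.symm e' : Fin N) : ℕ) < t)).card ≤ t := by
    intro σ _
    calc (Finset.univ.filter (fun e' : E => ((σ.symm e' : Fin N) : ℕ) < t)).card
        ≤ (Finset.range t).card := by
          apply Finset.card_le_card_of_injOn (fun e' => ((σ.symm e' : Fin N) : ℕ))
          · intro x hx
            simpa using hx
          · intro x _ y _ hxy
            exact σ.symm.injective (Fin.ext hxy)
      _ = t := Finset.card_range t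
  calc _ ≤ ∑ _σ ∈ early (N := N) t F, t := Finset.sum_le_sum h3
    _ = t * (early (N := N) t F).card := by
      rw [Finset.sum_const, smul_eq_mul, mul_comm]

/-- First moment bound: `P(F ⊆ first t) ≤ (t/N)^|F|`. -/
theorem card_early (t : ℕ) (F : Finset E) (hN : Fintype.card E = N) :
    N ^ F.card * (early (N := N) t F).card ≤ t ^ F.card * N.factorial := by
  induction F using Finset.induction_on with
  | empty =>
    simp only [Finset.card_empty, pow_zero, one_mul]
    calc (early (N := N) t (∅ : Finset E)).card
        ≤ (Finset.univ : Finset (Fin N ≃ E)).card := Finset.card_le_card (Finset.filter_subset _ _)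
      _ = N.factorial := by
        rw [Finset.card_univ]
        have e : Fin N ≃ E := (Fintype.equivFinOfCardEq hN).symm
        rw [Fintype.card_equiv e, Fintype.card_fin]
  | insert e F he ih =>
    rw [Finset.card_insert_of_notMem he, pow_succ, pow_succ]
    have h := card_early_insert (N := N) t F e he hN
    calc N ^ F.card * N * (early (N := N) t (insert e F)).card
        = N ^ F.card * (N * (early (N := N) t (insert e F)).card) := by ring
      _ ≤ N ^ F.card * (t * (early (N := N) t F).card) := Nat.mul_le_mul_left _ h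
      _ = t * (N ^ F.card * (early (N := N) t F).card) := by ring
      _ ≤ t * (t ^ F.card * N.factorial) := Nat.mul_le_mul_left _ ih
      _ = t ^ F.card * t * N.factorial := by ring

/-- Deterministic evolution of a state along a sequence. -/
def run {S : Type} (step : ℕ → S → E → S) (s0 : S) (σ : Fin N ≃ E) : ℕ → S
  | 0 => s0
  | i + 1 => if h : i < N then step i (run step s0 σ i) (σ ⟨i, h⟩) else run step s0 σ i

theorem run_succ {S : Type} (step : ℕ → S → E → S) (s0 : S) (σ : Fin N ≃ E) (i : ℕ)
    (h : i < N) : run step s0 σ (i + 1) = step i (run step s0 σ i) (σ ⟨i, h⟩) := by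
  simp [run, h]

theorem run_congr {S : Type} (step : ℕ → S → E → S) (s0 : S) (σ σ' : Fin N ≃ E) (i : ℕ)
    (h : ∀ j : Fin N, (j : ℕ) < i → σ j = σ' j) : run step s0 σ i = run step s0 σ' i := by
  induction i with
  | zero => rfl
  | succ i ih =>
    have ih' := ih (fun j hj => h j (hj.trans (Nat.lt_succ_self i)))
    simp only [run]
    by_cases hi : i < N
    · rw [dif_pos hi, dif_pos hi, ih', h ⟨i, hi⟩ (Nat.lt_succ_self i)]
    · rw [dif_neg hi, dif_neg hi, ih']

theorem run_swap {S : Type} (step : ℕ → S → E → S) (s0 : S) (σ : Fin N ≃ E) (i j : Fin N)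
    (hij : i ≤ j) : run step s0 ((Equiv.swap i j).trans σ) i = run step s0 σ i := by
  apply run_congr
  intro m hm
  have h1 : m ≠ i := fun h => by subst h; exact lt_irrefl _ hm
  have h2 : m ≠ j := fun h => by
    subst h
    exact absurd (Fin.le_def.1 hij) (not_le.2 hm)
  simp [Equiv.swap_apply_of_ne_of_ne h1 h2]

theorem run_swap_succ {S : Type} (step : ℕ → S → E → S) (s0 : S) (σ : Fin N ≃ E) (i j : Fin N)
    (hij : i ≤ j) : run step s0 ((Equiv.swap i j).trans σ) (i + 1)
      = step i (run step s0 σ i) (σ j) := by
  rw [run_succ _ _ _ _ i.2, run_swap step s0 σ i j hij]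
  simp

end Pool.Agent.H362R3
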