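import Mathlib

/-!
Labelled binary trees inside a graph.
-/

namespace Pool.Agent.H362R3

open Finset

set_option autoImplicit false

/-- Binary trees with labelled nodes. -/
inductive BT (α : Type) : Type
  | nil : BT α
  | node : α → BT α → BT α → BT α

namespace BT

variable {α : Type} [DecidableEq α]

/-- number of nodes -/
def size : BT α → ℕ
  | nil => 0
  | node _ l r => l.size + r.size + 1

/-- set of labels -/
def verts : BT α → Finset α
  | nil => ∅
  | node a l r => insert a (l.verts ∪ r.verts)

/-- the edge joining `a` to the root -/
def edgeTo (a : α) : BT α → Finset (Sym2 α)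
  | nil => ∅
  | node b _ _ => {s(a, b)}

/-- parent-child pairs -/
def edges : BT α → Finset (Sym2 α)
  | nil => ∅
  | node a l r => (edgeTo a l ∪ edgeTo a r) ∪ (l.edges ∪ r.edges)

@[simp] theorem edgeTo_nil (a : α) : edgeTo a (nil : BT α) = ∅ := rfl

@[simp] theorem edgeTo_node (a b : α) (l r : BT α) : edgeTo a (node b l r) = {s(a, b)} := rfl

theorem edges_node (a : α) (l r : BT α) :
    (node a l r).edges = (edgeTo a l ∪ edgeTo a r) ∪ (l.edges ∪ r.edges) := rfl

theorem edges_nil : (nil : BT α).edges = ∅ := rfl

/-- all labels distinct -/
def Nodup : BT α → Prop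
  | nil => True
  | node a l r => a ∉ l.verts ∧ a ∉ r.verts ∧ Disjoint l.verts r.verts ∧ l.Nodup ∧ r.Nodup

/-- is this the empty tree -/
def isNil : BT α → Bool
  | nil => true
  | node _ _ _ => false

/-- nodes having at most one child -/
def avail : BT α → Finset α
  | nil => ∅
  | node a l r => (if l.isNil || r.isNil then {a} else ∅) ∪ (l.avail ∪ r.avail)

theorem card_verts (T : BT α) (h : T.Nodup) : T.verts.card = T.size := by
  induction T with
  | nil => rfl
  | node a l r ihl ihr =>
    obtain ⟨h1, h2, h3, h4, h5⟩ := h
    simp only [verts, size]
    rw [Finset.card_insert_of_notMem (by simp [h1, h2]), Finset.card_union_of_disjoint h3, ihl h4,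
      ihr h5]

theorem avail_subset (T : BT α) : T.avail ⊆ T.verts := by
  induction T with
  | nil => simp [avail]
  | node a l r ihl ihr =>
    intro x hx
    simp only [avail, Finset.mem_union] at hx
    simp only [verts, Finset.mem_insert, Finset.mem_union]
    rcases hx with hx | hx | hx
    · split_ifs at hx
      · left; simpa using hx
      · simp at hx
    · right; left; exact ihl hx
    · right; right; exact ihr hx

theorem size_pos_of_isNil {T : BT α} (h : T.isNil = false) : 0 < T.size := by
  cases T with
  | nil => simp [isNil] at h
  | node a l r => simp [size]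

theorem eq_nil_of_isNil {T : BT α} (h : T.isNil = true) : T = nil := by
  cases T with
  | nil => rfl
  | node a l r => simp [isNil] at h

theorem card_avail (T : BT α) (h : T.Nodup) (hT : T.isNil = false) :
    T.size + 1 ≤ 2 * T.avail.card := by
  induction T with
  | nil => simp [isNil] at hT
  | node a l r ihl ihr =>
    obtain ⟨h1, h2, h3, h4, h5⟩ := h
    have hd : Disjoint l.avail r.avail :=
      Finset.disjoint_of_subset_left (avail_subset l)
        (Finset.disjoint_of_subset_right (avail_subset r) h3)
    have ha : a ∉ l.avail ∪ r.avail := by
      simp only [Finset.mem_union, not_or]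
      exact ⟨fun h => h1 (avail_subset l h), fun h => h2 (avail_subset r h)⟩
    simp only [avail, size]
    rcases hl : l.isNil with _ | _ <;> rcases hr : r.isNil with _ | _
    · simp only [Bool.or_self, Bool.false_eq_true, if_false, Finset.empty_union]
      rw [Finset.card_union_of_disjoint hd]
      have := ihl h4 hl
      have := ihr h5 hr
      omega
    · simp only [Bool.or_true, if_true]
      rw [Finset.card_union_of_disjoint (by simpa using ha), Finset.card_union_of_disjoint hd]
      have := ihl h4 hl
      have hr' := eq_nil_of_isNil hr
      subst hr'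
      simp only [size, avail, Finset.card_singleton, Finset.card_empty]
      omega
    · simp only [Bool.or_false, if_true]
      rw [Finset.card_union_of_disjoint (by simpa using ha), Finset.card_union_of_disjoint hd]
      have := ihr h5 hr
      have hl' := eq_nil_of_isNil hl
      subst hl'
      simp only [size, avail, Finset.card_singleton, Finset.card_empty]
      omega
    · simp only [Bool.or_self, if_true]
      rw [Finset.card_union_of_disjoint (by simpa using ha), Finset.card_union_of_disjoint hd]
      have hl' := eq_nil_of_isNil hl
      have hr' := eq_nil_of_isNil hr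
      subst hl' hr'
      simp [size, avail]

/-- `T'` is obtained from `T` by adding the new leaf `y` below `x`. -/
def Ext (T : BT α) (x y : α) (T' : BT α) : Prop :=
  T'.Nodup ∧ T'.size = T.size + 1 ∧ T'.verts = insert y T.verts ∧
    T'.edges = insert s(x, y) T.edges ∧ ∀ a, edgeTo a T' = edgeTo a T

theorem exists_ext (T : BT α) (h : T.Nodup) (x y : α) (hx : x ∈ T.avail) (hy : y ∉ T.verts) :
    ∃ T', Ext T x y T' := by
  induction T with
  | nil => simp [avail] at hx
  | node a l r ihl ihr =>
    obtain ⟨h1, h2, h3, h4, h5⟩ := h
    simp only [verts, Finset.mem_insert, Finset.mem_union, not_or] at hy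
    obtain ⟨hya, hyl, hyr⟩ := hy
    simp only [avail, Finset.mem_union] at hx
    rcases hx with hx | hx | hx
    · have hlr : l.isNil = true ∨ r.isNil = true := by
        by_contra hcon
        push Not at hcon
        simp [hcon] at hx
      have hxa : x = a := by
        split_ifs at hx
        · simpa using hx
        · simp at hx
      subst hxa
      rcases hlr with hl | hr
      · have hl' := eq_nil_of_isNil hl
        subst hl'
        refine ⟨node x (node y nil nil) r, ?_, ?_, ?_, ?_, ?_⟩
        · refine ⟨?_, h2, ?_, ?_, h5⟩
          · simpa [verts] using (fun h => hya h.symm)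
          · simpa [verts] using hyr
          · simp [Nodup, verts]
        · simp only [size]; ring
        · simp only [verts, Finset.empty_union, Finset.union_empty]
          rw [Finset.insert_union, Finset.insert_comm, Finset.empty_union]
        · rw [edges_node, edges_node, edges_node, edgeTo_node, edges_nil, edgeTo_nil, edgeTo_nil]
          simp only [Finset.empty_union, Finset.union_empty]
          rw [Finset.union_assoc, ← Finset.insert_eq]
        · intro b
          rfl
      · have hr' := eq_nil_of_isNil hr
        subst hr'
        refine ⟨node x l (node y nil nil), ?_, ?_, ?_, ?_, ?_⟩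
        · refine ⟨h1, ?_, ?_, h4, ?_⟩
          · simpa [verts] using (fun h => hya h.symm)
          · simpa [verts] using hyl
          · simp [Nodup, verts]
        · simp [size]
        · simp only [verts, Finset.union_empty]
          rw [Finset.union_comm, Finset.insert_union, Finset.empty_union, Finset.insert_comm]
        · rw [edges_node, edges_node, edges_node, edgeTo_node, edges_nil, edgeTo_nil, edgeTo_nil]
          simp only [Finset.union_empty]
          rw [Finset.union_comm (edgeTo x l), Finset.union_assoc, ← Finset.insert_eq]
        · intro b
          rfl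
    · obtain ⟨l', hn, hs, hv, he, hroot⟩ := ihl h4 hx hyl
      refine ⟨node a l' r, ?_, ?_, ?_, ?_, ?_⟩
      · refine ⟨?_, h2, ?_, hn, h5⟩
        · rw [hv]; simp only [Finset.mem_insert, not_or]; exact ⟨fun h => hya h.symm, h1⟩
        · rw [hv, Finset.disjoint_insert_left]; exact ⟨hyr, h3⟩
      · simp only [size, hs]; omega
      · simp only [verts, hv]
        rw [Finset.insert_union, Finset.insert_comm]
      · rw [edges_node, edges_node, hroot, he, Finset.insert_union, Finset.union_insert]
      · intro b
        rfl
    · obtain ⟨r', hn, hs, hv, he, hroot⟩ := ihr h5 hx hyr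
      refine ⟨node a l r', ?_, ?_, ?_, ?_, ?_⟩
      · refine ⟨h1, ?_, ?_, h4, hn⟩
        · rw [hv]; simp only [Finset.mem_insert, not_or]; exact ⟨fun h => hya h.symm, h2⟩
        · rw [hv, Finset.disjoint_insert_right]; exact ⟨hyl, h3⟩
      · simp only [size, hs]; omega
      · simp only [verts, hv]
        rw [Finset.union_insert, Finset.insert_comm]
      · rw [edges_node, edges_node, hroot, he, Finset.union_insert, Finset.union_insert]
      · intro b
        rfl

theorem edgeTo_mem (a : α) (T : BT α) (e : Sym2 α) (he : e ∈ edgeTo a T) :
    ∃ b ∈ T.verts, e = s(a, b) := by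
  cases T with
  | nil => simp [edgeTo] at he
  | node b l r =>
    simp only [edgeTo, Finset.mem_singleton] at he
    exact ⟨b, by simp [verts], he⟩

theorem edges_verts (T : BT α) (e : Sym2 α) (he : e ∈ T.edges) (v : α) (hv : v ∈ e) :
    v ∈ T.verts := by
  induction T with
  | nil => simp [edges] at he
  | node a l r ihl ihr =>
    simp only [edges, Finset.mem_union] at he
    simp only [verts, Finset.mem_insert, Finset.mem_union]
    rcases he with (he | he) | (he | he)
    · obtain ⟨b, hb, rfl⟩ := edgeTo_mem a l e he
      rw [Sym2.mem_iff] at hv
      rcases hv with rfl | rfl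
      · left; rfl
      · right; left; exact hb
    · obtain ⟨b, hb, rfl⟩ := edgeTo_mem a r e he
      rw [Sym2.mem_iff] at hv
      rcases hv with rfl | rfl
      · left; rfl
      · right; right; exact hb
    · right; left; exact ihl he
    · right; right; exact ihr he

theorem edges_not_diag (T : BT α) (h : T.Nodup) (e : Sym2 α) (he : e ∈ T.edges) :
    ¬ e.IsDiag := by
  induction T with
  | nil => simp [edges] at he
  | node a l r ihl ihr =>
    obtain ⟨h1, h2, h3, h4, h5⟩ := h
    simp only [edges, Finset.mem_union] at he
    rcases he with (he | he) | (he | he)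
    · obtain ⟨b, hb, rfl⟩ := edgeTo_mem a l e he
      rw [Sym2.mk_isDiag_iff]
      rintro rfl
      exact h1 hb
    · obtain ⟨b, hb, rfl⟩ := edgeTo_mem a r e he
      rw [Sym2.mk_isDiag_iff]
      rintro rfl
      exact h2 hb
    · exact ihl h4 he
    · exact ihr h5 he

theorem card_edges (T : BT α) (h : T.Nodup) (hT : T.isNil = false) :
    T.edges.card + 1 = T.size := by
  induction T with
  | nil => simp [isNil] at hT
  | node a l r ihl ihr =>
    obtain ⟨h1, h2, h3, h4, h5⟩ := h
    have key : ∀ (T : BT α), a ∉ T.verts → (T.Nodup) → (T.isNil = false →
        T.edges.card + 1 = T.size) → (edgeTo a T ∪ T.edges).card = T.size := by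
      intro T haT hT ih
      cases T with
      | nil => simp [edgeTo, edges, size]
      | node b l r =>
        have : Disjoint (edgeTo a (node b l r)) (node b l r).edges := by
          rw [Finset.disjoint_left]
          intro e he he'
          obtain ⟨c, hc, rfl⟩ := edgeTo_mem a _ e he
          exact haT (edges_verts _ _ he' a (by simp))
        rw [Finset.card_union_of_disjoint this, ← ih rfl]
        simp only [edgeTo, Finset.card_singleton]
        ring
    have e1 := key l h1 h4 (ihl h4)
    have e2 := key r h2 h5 (ihr h5)
    have hd : Disjoint (edgeTo a l ∪ l.edges) (edgeTo a r ∪ r.edges) := by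
      rw [Finset.disjoint_left]
      intro e he he'
      -- find a vertex of e in l.verts
      have hl : ∃ v ∈ e, v ∈ l.verts := by
        rcases Finset.mem_union.1 he with he | he
        · obtain ⟨c, hc, rfl⟩ := edgeTo_mem a _ e he
          exact ⟨c, by simp, hc⟩
        · obtain ⟨v, hv⟩ : ∃ v, v ∈ e := by
            induction e with
            | _ x y => exact ⟨x, by simp⟩
          exact ⟨v, hv, edges_verts _ _ he v hv⟩
      obtain ⟨v, hve, hvl⟩ := hl
      rcases Finset.mem_union.1 he' with he' | he'
      · obtain ⟨c, hc, rfl⟩ := edgeTo_mem a _ e he'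
        rw [Sym2.mem_iff] at hve
        rcases hve with rfl | rfl
        · exact h1 hvl
        · exact Finset.disjoint_left.1 h3 hvl hc
      · exact Finset.disjoint_left.1 h3 hvl (edges_verts _ _ he' v hve)
    have e3 : (node a l r).edges = (edgeTo a l ∪ l.edges) ∪ (edgeTo a r ∪ r.edges) := by
      ext e
      simp only [edges, Finset.mem_union]
      tauto
    rw [e3, Finset.card_union_of_disjoint hd, e1, e2]
    rfl

/-- degree bound -/
theorem degree_le (T : BT α) (h : T.Nodup) (v : α) :
    (T.edges.filter (fun e => v ∈ e)).card ≤ 3 ∧
      ∀ a, a ∉ T.verts → v ≠ a →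
        ((edgeTo a T ∪ T.edges).filter (fun e => v ∈ e)).card ≤ 3 := by
  induction T with
  | nil => simp [edges, edgeTo]
  | node a l r ihl ihr =>
    obtain ⟨h1, h2, h3, h4, h5⟩ := h
    have hcardTo : ∀ (b : α) (T : BT α), (edgeTo b T).card ≤ 1 := by
      intro b T
      cases T <;> simp [edgeTo]
    -- empty filters
    have hempty : ∀ (T : BT α), v ∉ T.verts → v ≠ a →
        (edgeTo a T ∪ T.edges).filter (fun e => v ∈ e) = ∅ := by
      intro T hv hva
      rw [Finset.filter_eq_empty_iff]
      intro e he hve
      rcases Finset.mem_union.1 he with he | he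
      · obtain ⟨c, hc, rfl⟩ := edgeTo_mem a _ e he
        rw [Sym2.mem_iff] at hve
        rcases hve with rfl | rfl
        · exact hva rfl
        · exact hv hc
      · exact hv (edges_verts _ _ he v hve)
    have hrootdeg : ∀ (T : BT α), a ∉ T.verts →
        (edgeTo a T ∪ T.edges).filter (fun e => a ∈ e) ⊆ edgeTo a T := by
      intro T haT e he
      rw [Finset.mem_filter] at he
      rcases Finset.mem_union.1 he.1 with he' | he'
      · exact he'
      · exact absurd (edges_verts _ _ he' a he.2) haT
    have e3 : (node a l r).edges = (edgeTo a l ∪ l.edges) ∪ (edgeTo a r ∪ r.edges) := by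
      ext e
      simp only [edges, Finset.mem_union]
      tauto
    by_cases hva : v = a
    · -- root : at most two edges
      subst hva
      have h6 : ((node v l r).edges.filter (fun e => v ∈ e)).card ≤ 2 := by
        rw [e3, Finset.filter_union]
        refine (Finset.card_union_le _ _).trans ?_
        have a1 := Finset.card_le_card (hrootdeg l h1)
        have a2 := Finset.card_le_card (hrootdeg r h2)
        have a3 := hcardTo v l
        have a4 := hcardTo v r
        omega
      refine ⟨by omega, ?_⟩
      intro b _ _
      rw [Finset.filter_union]
      refine (Finset.card_union_le _ _).trans ?_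
      have a1 : ((edgeTo b (node v l r)).filter (fun e => v ∈ e)).card ≤ 1 :=
        (Finset.card_le_card (Finset.filter_subset _ _)).trans (hcardTo _ _)
      omega
    · have h6 : ((node a l r).edges.filter (fun e => v ∈ e)).card ≤ 3 := by
        rw [e3, Finset.filter_union]
        by_cases hvl : v ∈ l.verts
        · have hvr : v ∉ r.verts := Finset.disjoint_left.1 h3 hvl
          rw [hempty r hvr hva, Finset.union_empty]
          exact (ihl h4).2 a h1 hva
        · rw [hempty l hvl hva, Finset.empty_union]
          exact (ihr h5).2 a h2 hva
      refine ⟨h6, ?_⟩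
      intro b hb hvb
      have : (edgeTo b (node a l r) ∪ (node a l r).edges).filter (fun e => v ∈ e)
          = (node a l r).edges.filter (fun e => v ∈ e) := by
        rw [Finset.filter_union]
        have : (edgeTo b (node a l r)).filter (fun e => v ∈ e) = ∅ := by
          rw [Finset.filter_eq_empty_iff]
          intro e he hve
          simp only [edgeTo, Finset.mem_singleton] at he
          subst he
          rw [Sym2.mem_iff] at hve
          rcases hve with rfl | rfl
          · exact hvb rfl
          · exact hva rfl
        rw [this, Finset.empty_union]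
      rw [this]
      exact h6

/-- relabelling -/
def map {β : Type} (f : α → β) : BT α → BT β
  | nil => nil
  | node a l r => node (f a) (l.map f) (r.map f)

theorem size_map {β : Type} (f : α → β) (T : BT α) : (T.map f).size = T.size := by
  induction T with
  | nil => rfl
  | node a l r ihl ihr => simp [map, size, ihl, ihr]

theorem verts_map {β : Type} [DecidableEq β] (f : α → β) (T : BT α) :
    (T.map f).verts = T.verts.image f := by
  induction T with
  | nil => rfl
  | node a l r ihl ihr =>
    simp [map, verts, ihl, ihr, Finset.image_insert, Finset.image_union]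

theorem edgeTo_map {β : Type} [DecidableEq β] (f : α → β) (a : α) (T : BT α) :
    edgeTo (f a) (T.map f) = (edgeTo a T).image (Sym2.map f) := by
  cases T with
  | nil => rfl
  | node b l r => simp [map, edgeTo]

theorem edges_map {β : Type} [DecidableEq β] (f : α → β) (T : BT α) :
    (T.map f).edges = T.edges.image (Sym2.map f) := by
  induction T with
  | nil => rfl
  | node a l r ihl ihr =>
    simp only [map, edges, ihl, ihr, edgeTo_map, Finset.image_union]

theorem nodup_map {β : Type} [DecidableEq β] (f : α → β) (hf : Function.Injective f) (T : BT α)
    (h : T.Nodup) : (T.map f).Nodup := by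
  induction T with
  | nil => trivial
  | node a l r ihl ihr =>
    obtain ⟨h1, h2, h3, h4, h5⟩ := h
    refine ⟨?_, ?_, ?_, ihl h4, ihr h5⟩
    · rw [verts_map]
      simpa [hf.eq_iff] using h1
    · rw [verts_map]
      simpa [hf.eq_iff] using h2
    · rw [verts_map, verts_map]
      exact (Finset.disjoint_image hf).2 h3

end BT

end Pool.Agent.H362R3
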