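import Pool.Agent.H362R3.Proc2

/-!
First moment estimates: large degrees and early trees are unlikely.
-/

namespace Pool.Agent.H362R3

open Finset

set_option autoImplicit false

variable {n : ℕ}

/-- `P(F ⊆ first t) ≤ (t/N)^|F|`, real form. -/
theorem early_le (t : ℕ) (hN : 0 < n.choose 2) (F : Finset (Edge n)) :
    ((early (N := n.choose 2) t F).card : ℝ)
      ≤ ((t : ℝ) / (n.choose 2 : ℕ)) ^ F.card * ((n.choose 2).factorial : ℝ) := by
  have h := card_early (N := n.choose 2) t F (card_edge n)
  have h' : (((n.choose 2) ^ F.card * (early (N := n.choose 2) t F).card : ℕ) : ℝ)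
      ≤ ((t ^ F.card * (n.choose 2).factorial : ℕ) : ℝ) := by exact_mod_cast h
  push_cast at h'
  have hN' : (0 : ℝ) < ((n.choose 2 : ℕ) : ℝ) := by exact_mod_cast hN
  rw [div_pow, div_mul_eq_mul_div, le_div_iff₀ (by positivity), mul_comm]
  exact h'

/-- edges of a star -/
noncomputable def star (x : Fin n) (Y : Finset (Fin n)) : Finset (Edge n) :=
  (Y.image (fun y => (s(x, y) : Sym2 (Fin n)))).subtype (fun e => ¬ e.IsDiag)

theorem card_star (x : Fin n) (Y : Finset (Fin n)) (hx : x ∉ Y) : (star x Y).card = Y.card := by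
  unfold star
  rw [Finset.card_subtype, Finset.filter_true_of_mem, Finset.card_image_of_injOn]
  · intro a _ b _ hab
    simp only [Sym2.eq_iff] at hab
    rcases hab with ⟨_, h⟩ | ⟨h1, h2⟩
    · exact h
    · rw [h2, h1]
  · intro e he
    obtain ⟨y, hy, rfl⟩ := Finset.mem_image.1 he
    rw [Sym2.mk_isDiag_iff]
    rintro rfl
    exact hx hy

open Classical in
theorem bad_card (t : ℕ) (hN : 0 < n.choose 2) (ht : 256 * t ≤ n.choose 2) :
    ((Finset.univ.filter (fun σ : Fin (n.choose 2) ≃ Edge n => ¬ goodAt σ t)).card : ℝ)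
      ≤ ((n.choose 2).factorial : ℝ) * (n * (1 / 2 : ℝ) ^ n) := by
  have hsub : (Finset.univ.filter (fun σ : Fin (n.choose 2) ≃ Edge n => ¬ goodAt σ t))
      ⊆ (Finset.univ : Finset (Fin n)).biUnion (fun x =>
        ((Finset.univ : Finset (Finset (Fin n))).filter (fun Y => x ∉ Y ∧ n < 4 * Y.card)).biUnion
          (fun Y => early (N := n.choose 2) t (star x Y))) := by
    intro σ hσ
    simp only [Finset.mem_filter, Finset.mem_univ, true_and, goodAt, not_forall, not_le] at hσ
    obtain ⟨x, hx⟩ := hσ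
    simp only [Finset.mem_biUnion, Finset.mem_univ, true_and, Finset.mem_filter]
    refine ⟨x, rev σ t x, ⟨?_, hx⟩, ?_⟩
    · intro h
      simp only [rev, Finset.mem_filter, Finset.mem_univ, true_and] at h
      obtain ⟨h1, _⟩ := h
      simp at h1
    · simp only [early, Finset.mem_filter, Finset.mem_univ, true_and]
      intro e he
      simp only [star, Finset.mem_subtype, Finset.mem_image] at he
      obtain ⟨y, hy, hye⟩ := he
      simp only [rev, Finset.mem_filter, Finset.mem_univ, true_and] at hy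
      obtain ⟨h1, h2⟩ := hy
      have : e = ⟨s(x, y), h1⟩ := Subtype.ext hye.symm
      rw [this]
      exact h2
  have hN' : (0 : ℝ) < ((n.choose 2 : ℕ) : ℝ) := by exact_mod_cast hN
  have hratio : (t : ℝ) / (n.choose 2 : ℕ) ≤ 1 / 256 := by
    rw [div_le_div_iff₀ hN' (by norm_num)]
    have : ((256 * t : ℕ) : ℝ) ≤ ((n.choose 2 : ℕ) : ℝ) := by exact_mod_cast ht
    push_cast at this
    linarith
  have hr0 : 0 ≤ (t : ℝ) / (n.choose 2 : ℕ) := by positivity
  have hone : ∀ (x : Fin n) (Y : Finset (Fin n)), x ∉ Y ∧ n < 4 * Y.card →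
      ((early (N := n.choose 2) t (star x Y)).card : ℝ)
        ≤ (1 / 4 : ℝ) ^ n * ((n.choose 2).factorial : ℝ) := by
    intro x Y ⟨h1, h2⟩
    refine (early_le t hN _).trans ?_
    rw [card_star x Y h1]
    apply mul_le_mul_of_nonneg_right _ (by positivity)
    calc ((t : ℝ) / (n.choose 2 : ℕ)) ^ Y.card ≤ (1 / 256 : ℝ) ^ Y.card :=
          pow_le_pow_left₀ hr0 hratio _
      _ = (1 / 4 : ℝ) ^ (4 * Y.card) := by rw [pow_mul]; norm_num
      _ ≤ (1 / 4 : ℝ) ^ n := pow_le_pow_of_le_one (by norm_num) (by norm_num) h2.le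
  have h1 : ((Finset.univ.filter (fun σ : Fin (n.choose 2) ≃ Edge n => ¬ goodAt σ t)).card : ℝ)
      ≤ ∑ x : Fin n, ∑ Y ∈ (Finset.univ : Finset (Finset (Fin n))).filter
          (fun Y => x ∉ Y ∧ n < 4 * Y.card),
          ((early (N := n.choose 2) t (star x Y)).card : ℝ) := by
    have ha := Finset.card_le_card hsub
    have hb : ((Finset.univ : Finset (Fin n)).biUnion (fun x =>
        ((Finset.univ : Finset (Finset (Fin n))).filter (fun Y => x ∉ Y ∧ n < 4 * Y.card)).biUnion
          (fun Y => early (N := n.choose 2) t (star x Y)))).card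
        ≤ ∑ x : Fin n, ∑ Y ∈ (Finset.univ : Finset (Finset (Fin n))).filter
          (fun Y => x ∉ Y ∧ n < 4 * Y.card), (early (N := n.choose 2) t (star x Y)).card :=
      Finset.card_biUnion_le.trans (Finset.sum_le_sum (fun x _ => Finset.card_biUnion_le))
    exact_mod_cast ha.trans hb
  refine h1.trans ?_
  calc ∑ x : Fin n, ∑ Y ∈ (Finset.univ : Finset (Finset (Fin n))).filter
          (fun Y => x ∉ Y ∧ n < 4 * Y.card),
          ((early (N := n.choose 2) t (star x Y)).card : ℝ)
      ≤ ∑ x : Fin n, ∑ Y ∈ (Finset.univ : Finset (Finset (Fin n))).filter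
          (fun Y => x ∉ Y ∧ n < 4 * Y.card),
          ((1 / 4 : ℝ) ^ n * ((n.choose 2).factorial : ℝ)) := by
        apply Finset.sum_le_sum
        intro x _
        apply Finset.sum_le_sum
        intro Y hY
        exact hone x Y (Finset.mem_filter.1 hY).2
    _ ≤ ∑ x : Fin n, ((2 : ℝ) ^ n * ((1 / 4 : ℝ) ^ n * ((n.choose 2).factorial : ℝ))) := by
        apply Finset.sum_le_sum
        intro x _
        rw [Finset.sum_const, nsmul_eq_mul]
        apply mul_le_mul_of_nonneg_right _ (by positivity)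
        have : ((Finset.univ : Finset (Finset (Fin n))).filter
          (fun Y => x ∉ Y ∧ n < 4 * Y.card)).card ≤ 2 ^ n := by
          refine (Finset.card_le_card (Finset.filter_subset _ _)).trans ?_
          rw [Finset.card_univ, Fintype.card_finset, Fintype.card_fin]
        exact_mod_cast this
    _ = ((n.choose 2).factorial : ℝ) * (n * (1 / 2 : ℝ) ^ n) := by
        rw [Finset.sum_const, nsmul_eq_mul, Finset.card_univ, Fintype.card_fin]
        have : (2 : ℝ) ^ n * ((1 / 4 : ℝ) ^ n * ((n.choose 2).factorial : ℝ))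
            = (1 / 2 : ℝ) ^ n * ((n.choose 2).factorial : ℝ) := by
          rw [← mul_assoc, ← mul_pow]; norm_num
        rw [this]
        ring

/-- containing a labelled binary tree with `m` nodes -/
def HasTree (G : SimpleGraph (Fin n)) (m : ℕ) : Prop :=
  ∃ T : BT (Fin n), T.Nodup ∧ T.size = m ∧ ∀ e ∈ T.edges, e ∈ G.edgeSet

/-- the edges of a tree as edges of the complete graph -/
noncomputable def tedges (T : BT (Fin n)) : Finset (Edge n) :=
  T.edges.subtype (fun e => ¬ e.IsDiag)

theorem card_tedges (T : BT (Fin n)) (h : T.Nodup) : (tedges T).card = T.edges.card := by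
  unfold tedges
  rw [Finset.card_subtype, Finset.filter_true_of_mem]
  intro e he
  exact BT.edges_not_diag T h e he

open Classical in
theorem tree_card (t k : ℕ) (hN : 0 < n.choose 2) :
    ((Finset.univ.filter (fun σ : Fin (n.choose 2) ≃ Edge n =>
      ∃ T : BT (Fin n), T.Nodup ∧ T.size = k + 1 ∧
        ∀ e ∈ T.edges, ∃ i : Fin (n.choose 2), (i : ℕ) < t ∧ (σ i).1 = e)).card : ℝ)
      ≤ ((n.choose 2).factorial : ℝ) *
        ((4 * n : ℝ) ^ (k + 1) * ((t : ℝ) / (n.choose 2 : ℕ)) ^ k) := by
  have hsub : (Finset.univ.filter (fun σ : Fin (n.choose 2) ≃ Edge n =>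
      ∃ T : BT (Fin n), T.Nodup ∧ T.size = k + 1 ∧
        ∀ e ∈ T.edges, ∃ i : Fin (n.choose 2), (i : ℕ) < t ∧ (σ i).1 = e))
      ⊆ ((BT.allT (Fin n) (k + 1)).filter (fun T => T.Nodup ∧ T.size = k + 1)).biUnion
        (fun T => early (N := n.choose 2) t (tedges T)) := by
    intro σ hσ
    simp only [Finset.mem_filter, Finset.mem_univ, true_and] at hσ
    obtain ⟨T, h1, h2, h3⟩ := hσ
    simp only [Finset.mem_biUnion, Finset.mem_filter]
    refine ⟨T, ⟨?_, h1, h2⟩, ?_⟩
    · rw [← h2]; exact BT.mem_allT T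
    · simp only [early, Finset.mem_filter, Finset.mem_univ, true_and]
      intro e he
      simp only [tedges, Finset.mem_subtype] at he
      obtain ⟨i, hi, hie⟩ := h3 _ he
      have : σ i = e := Subtype.ext hie
      rw [← this, Equiv.symm_apply_apply]
      exact hi
  have h1 : ((Finset.univ.filter (fun σ : Fin (n.choose 2) ≃ Edge n =>
      ∃ T : BT (Fin n), T.Nodup ∧ T.size = k + 1 ∧
        ∀ e ∈ T.edges, ∃ i : Fin (n.choose 2), (i : ℕ) < t ∧ (σ i).1 = e)).card : ℝ)
      ≤ ∑ T ∈ (BT.allT (Fin n) (k + 1)).filter (fun T => T.Nodup ∧ T.size = k + 1),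
          ((early (N := n.choose 2) t (tedges T)).card : ℝ) := by
    have ha := (Finset.card_le_card hsub).trans Finset.card_biUnion_le
    exact_mod_cast ha
  refine h1.trans ?_
  calc ∑ T ∈ (BT.allT (Fin n) (k + 1)).filter (fun T => T.Nodup ∧ T.size = k + 1),
          ((early (N := n.choose 2) t (tedges T)).card : ℝ)
      ≤ ∑ _T ∈ (BT.allT (Fin n) (k + 1)).filter (fun T => T.Nodup ∧ T.size = k + 1),
          (((t : ℝ) / (n.choose 2 : ℕ)) ^ k * ((n.choose 2).factorial : ℝ)) := by
        apply Finset.sum_le_sum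
        intro T hT
        obtain ⟨_, hnd, hs⟩ := Finset.mem_filter.1 hT
        have hnil : T.isNil = false := by
          rcases hb : T.isNil with _ | _
          · rfl
          · rw [BT.eq_nil_of_isNil hb] at hs
            simp [BT.size] at hs
        have hc := BT.card_edges T hnd hnil
        refine (early_le t hN _).trans (le_of_eq ?_)
        rw [card_tedges T hnd]
        have : T.edges.card = k := by omega
        rw [this]
    _ ≤ (4 * n : ℝ) ^ (k + 1) * (((t : ℝ) / (n.choose 2 : ℕ)) ^ k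
          * ((n.choose 2).factorial : ℝ)) := by
        rw [Finset.sum_const, nsmul_eq_mul]
        apply mul_le_mul_of_nonneg_right _ (by positivity)
        have h2 := BT.card_allT_le (α := Fin n) (k + 1)
        rw [Fintype.card_fin] at h2
        have h3 : ((BT.allT (Fin n) (k + 1)).filter
            (fun T => T.Nodup ∧ T.size = k + 1)).card ≤ (4 * n) ^ (k + 1) :=
          (Finset.card_le_card (Finset.filter_subset _ _)).trans h2
        exact_mod_cast h3
    _ = _ := by ring

end Pool.Agent.H362R3
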