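import Pool.Agent.H362R3.Proc2

/-!
Chaining the stages.
-/

namespace Pool.Agent.H362R3

open Finset

set_option autoImplicit false

variable {n w : ℕ}

/-- growth rate per step in stage `q` -/
noncomputable def rate (n q : ℕ) : ℝ := ((q : ℝ) + 1) / (2 * n)

/-- success probability of stage `q` -/
noncomputable def pq (n T q : ℕ) : ℝ := 1 - (1 - rate n q) ^ T

/-- success probability of stages `q, ..., k-1` -/
noncomputable def Fs (n T k q : ℕ) : ℝ := ∏ q' ∈ Finset.Ico q k, pq n T q'

theorem rate_nonneg (n q : ℕ) : 0 ≤ rate n q := by unfold rate; positivity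

theorem rate_le_one (n q : ℕ) (h : q < n) : rate n q ≤ 1 := by
  unfold rate
  have hn : (0 : ℝ) < n := by exact_mod_cast (Nat.zero_le q).trans_lt h
  rw [div_le_one (by positivity)]
  have : (q : ℝ) + 1 ≤ n := by exact_mod_cast h
  linarith

theorem pq_mem (n T q : ℕ) (h : q < n) : 0 ≤ pq n T q ∧ pq n T q ≤ 1 := by
  have h1 := rate_nonneg n q
  have h2 := rate_le_one n q h
  unfold pq
  constructor
  · have : (1 - rate n q) ^ T ≤ 1 := pow_le_one₀ (by linarith) (by linarith)
    linarith
  · have : 0 ≤ (1 - rate n q) ^ T := pow_nonneg (by linarith) T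
    linarith

theorem Fs_mem (n T k q : ℕ) (h : k ≤ n) : 0 ≤ Fs n T k q ∧ Fs n T k q ≤ 1 := by
  unfold Fs
  constructor
  · apply Finset.prod_nonneg
    intro i hi
    exact (pq_mem n T i (by have := Finset.mem_Ico.1 hi; omega)).1
  · apply Finset.prod_le_one
    · intro i hi
      exact (pq_mem n T i (by have := Finset.mem_Ico.1 hi; omega)).1
    · intro i hi
      exact (pq_mem n T i (by have := Finset.mem_Ico.1 hi; omega)).2

theorem Fs_succ (n T k q : ℕ) (h : q < k) : Fs n T k q = pq n T q * Fs n T k (q + 1) := by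
  unfold Fs
  rw [Finset.prod_eq_prod_Ico_succ_bot h]

/-- potential between stages -/
noncomputable def bpot (k T : ℕ) (root : Fin w ↪ Fin n) (q : ℕ)
    (σ : Fin (n.choose 2) ≃ Edge n) : ℝ :=
  open Classical in
  if goodAt σ (q * T) then
    (1 - Fs n T k q) ^ (cnt (q + 1) (state k T root σ (q * T))) else 0

theorem bpot_step (k T : ℕ) (hT : 0 < T) (root : Fin w ↪ Fin n) (q : ℕ) (hq : q < k)
    (hkn : k ≤ n) (hkT : k * T ≤ n.choose 2) (hw : 4 * (w * (k + 1)) ≤ n) :
    ∑ σ, bpot k T root (q + 1) σ ≤ ∑ σ, bpot k T root q σ := by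
  classical
  have hn : 0 < n := by omega
  have hqT : q * T + T ≤ n.choose 2 := by
    have : (q + 1) * T ≤ k * T := Nat.mul_le_mul_right _ hq
    calc q * T + T = (q + 1) * T := by ring
      _ ≤ _ := this.trans hkT
  have hdiv : ∀ i : ℕ, q * T ≤ i → i < q * T + T → i / T = q := by
    intro i h1 h2
    apply Nat.div_eq_of_lt_le
    · exact h1
    · calc i < q * T + T := h2
        _ = (q + 1) * T := by ring
  have hst := pot_stage (E := Edge n) (N := n.choose 2) (stp k T) (st0 root) (cnt (q + 1))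
    (cnt (q + 2)) goodAt (Fs n T k (q + 1)) (rate n q) (Fs_mem n T k (q + 1) hkn).1
    (Fs_mem n T k (q + 1) hkn).2 (rate_nonneg n q) (rate_le_one n q (by omega)) (Acc k q) T
    (q * T) hqT ?_ ?_ ?_ ?_ ?_
  · -- compare
    have e1 : ∀ σ : Fin (n.choose 2) ≃ Edge n,
        pot (stp k T) (st0 root) (cnt (q + 1)) (cnt (q + 2)) goodAt (Fs n T k (q + 1))
          (rate n q) (q * T + T) 0 σ = bpot k T root (q + 1) σ := by
      intro σ
      unfold pot bpot state
      have : q * T + T = (q + 1) * T := by ring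
      rw [this]
      simp
    have e2 : ∀ σ : Fin (n.choose 2) ≃ Edge n,
        pot (stp k T) (st0 root) (cnt (q + 1)) (cnt (q + 2)) goodAt (Fs n T k (q + 1))
          (rate n q) (q * T) T σ = bpot k T root q σ := by
      intro σ
      unfold pot bpot
      have hD : cnt (q + 2) (run (stp k T) (st0 root) σ (q * T)) = 0 := by
        unfold cnt
        rw [Finset.card_eq_zero, Finset.filter_eq_empty_iff]
        intro r _ hr
        have h1 := (size_le_stage k T hT root σ (q * T) r).1 ⟨q, rfl⟩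
        rw [Nat.mul_div_cancel _ hT] at h1
        unfold state at h1
        omega
      rw [hD, pow_zero, mul_one, Fs_succ n T k q hq]
      unfold state pq
      congr 2
      ring
    calc ∑ σ, bpot k T root (q + 1) σ = _ := Finset.sum_congr rfl (fun σ _ => (e1 σ).symm)
      _ ≤ _ := hst
      _ = ∑ σ, bpot k T root q σ := Finset.sum_congr rfl (fun σ _ => e2 σ)
  · intro i h1 h2 σ e hacc
    have hd := hdiv i h1 h2
    have hacc' : Acc k (i / T) (state k T root σ i) e := by rw [hd]; exact hacc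
    obtain ⟨p, T', hp, hT', heq⟩ := stp_acc k T i _ _ hacc' (inv_state k T root σ i)
    unfold state at heq hp hT'
    rw [heq]
    rw [hd] at hp
    have hs := hp.2.2.1
    exact cnt_update _ p.1 T' (q + 1) hs (by rw [hT'.2.1, hs])
  · intro i h1 h2 σ e hacc
    have hd := hdiv i h1 h2
    rw [stp_not k T i _ e (by rw [hd]; exact hacc)]
    exact ⟨rfl, rfl⟩
  · intro σ i h
    exact goodAt_mono σ i h
  · intro σ i j hij h
    exact goodAt_swap σ i j hij h
  · intro i h1 h2 σ hg
    have hsz : 4 * ∑ r, (state k T root σ i r).size ≤ n :=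
      (Nat.mul_le_mul_left _ (sum_size_le k T root σ i)).trans hw
    have hc := count_acc k q hq (state k T root σ i) (inv_state k T root σ i) σ i hg hsz
    have hc' : ((cnt (q + 1) (state k T root σ i) * (q + 2) * n : ℕ) : ℝ) ≤
        ((4 * Nat.card {j : Fin (n.choose 2) // i ≤ j ∧ Acc k q (state k T root σ i) (σ j)} : ℕ)
          : ℝ) := by exact_mod_cast hc
    push_cast at hc'
    unfold state at hc'
    set R : ℝ := (cnt (q + 1) (run (stp k T) (st0 root) σ i) : ℝ) with hR
    have hR0 : 0 ≤ R := Nat.cast_nonneg _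
    have hNi : ((n.choose 2 - (i : ℕ) : ℕ) : ℝ) ≤ (n : ℝ) * n / 2 := by
      have h3 : (n.choose 2 - (i : ℕ) : ℕ) ≤ n.choose 2 := Nat.sub_le _ _
      have h4 : (n.choose 2 : ℝ) = (n : ℝ) * (n - 1) / 2 := Nat.cast_choose_two ℝ n
      have h5 : ((n.choose 2 - (i : ℕ) : ℕ) : ℝ) ≤ (n.choose 2 : ℝ) := by exact_mod_cast h3
      rw [h4] at h5
      have hn' : (0 : ℝ) ≤ n := Nat.cast_nonneg _
      nlinarith
    have hn' : (0 : ℝ) < n := by exact_mod_cast hn
    have h6 : rate n q * R * ((n.choose 2 - (i : ℕ) : ℕ) : ℝ)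
        ≤ rate n q * R * ((n : ℝ) * n / 2) :=
      mul_le_mul_of_nonneg_left hNi (mul_nonneg (rate_nonneg n q) hR0)
    refine h6.trans ?_
    have h7 : rate n q * R * ((n : ℝ) * n / 2) = ((q : ℝ) + 1) * R * n / 4 := by
      unfold rate
      field_simp
      ring
    rw [h7]
    have h8 : 0 ≤ R * n := mul_nonneg hR0 hn'.le
    nlinarith

theorem bpot_chain (k T : ℕ) (hT : 0 < T) (root : Fin w ↪ Fin n)
    (hkn : k ≤ n) (hkT : k * T ≤ n.choose 2) (hw : 4 * (w * (k + 1)) ≤ n) :
    ∑ σ, bpot k T root k σ ≤ ∑ σ, bpot k T root 0 σ := by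
  have : ∀ q, q ≤ k → ∑ σ, bpot k T root q σ ≤ ∑ σ, bpot k T root 0 σ := by
    intro q
    induction q with
    | zero => intro _; exact le_rfl
    | succ q ih =>
      intro hq
      exact (bpot_step k T hT root q hq hkn hkT hw).trans (ih (by omega))
  exact this k le_rfl

open Classical in
/-- the failing orderings are few -/
theorem fail_card (k T : ℕ) (hT : 0 < T) (root : Fin w ↪ Fin n)
    (hkn : k ≤ n) (hkT : k * T ≤ n.choose 2) (hw : 4 * (w * (k + 1)) ≤ n) :
    ((Finset.univ.filter (fun σ : Fin (n.choose 2) ≃ Edge n =>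
      goodAt σ (k * T) ∧ ∀ r, (state k T root σ (k * T) r).size ≠ k + 1)).card : ℝ)
      ≤ ((n.choose 2).factorial : ℝ) * (1 - Fs n T k 0) ^ w := by
  have h1 := bpot_chain k T hT root hkn hkT hw
  have h2 : ∑ σ, bpot k T root k σ = ((Finset.univ.filter (fun σ : Fin (n.choose 2) ≃ Edge n =>
      goodAt σ (k * T) ∧ ∀ r, (state k T root σ (k * T) r).size ≠ k + 1)).card : ℝ) := by
    rw [Finset.card_filter]
    push_cast
    apply Finset.sum_congr rfl
    intro σ _
    unfold bpot
    have hF : Fs n T k k = 1 := by simp [Fs]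
    rw [hF, sub_self]
    by_cases hg : goodAt σ (k * T)
    · rw [if_pos hg]
      by_cases hs : ∀ r, (state k T root σ (k * T) r).size ≠ k + 1
      · have hc : cnt (k + 1) (state k T root σ (k * T)) = 0 := by
          unfold cnt
          rw [Finset.card_eq_zero, Finset.filter_eq_empty_iff]
          intro r _
          exact hs r
        rw [hc, pow_zero, if_pos ⟨hg, hs⟩]
      · have hc : cnt (k + 1) (state k T root σ (k * T)) ≠ 0 := by
          unfold cnt
          rw [Finset.card_ne_zero]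
          push Not at hs
          obtain ⟨r, hr⟩ := hs
          exact ⟨r, by simp [hr]⟩
        rw [zero_pow hc, if_neg (fun h => hs h.2)]
    · rw [if_neg hg, if_neg (fun h => hg h.1)]
  rw [← h2]
  refine h1.trans ?_
  have hF := Fs_mem n T k 0 hkn
  have h3 : ∀ σ ∈ (Finset.univ : Finset (Fin (n.choose 2) ≃ Edge n)),
      bpot k T root 0 σ ≤ (1 - Fs n T k 0) ^ w := by
    intro σ _
    unfold bpot
    have hc : cnt (0 + 1) (state k T root σ (0 * T)) = w := by
      rw [Nat.zero_mul]
      unfold cnt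
      have : (Finset.univ.filter (fun r : Fin w => (state k T root σ 0 r).size = 0 + 1))
          = Finset.univ := by
        rw [Finset.filter_true_of_mem]
        intro r _
        show (BT.size (BT.node (root r) BT.nil BT.nil)) = 0 + 1
        simp [BT.size]
      rw [this, Finset.card_univ, Fintype.card_fin]
    rw [hc]
    split_ifs
    · exact le_rfl
    · exact pow_nonneg (by linarith [hF.2]) w
  calc ∑ σ, bpot k T root 0 σ
      ≤ ∑ _σ : Fin (n.choose 2) ≃ Edge n, (1 - Fs n T k 0) ^ w := Finset.sum_le_sum h3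
    _ = ((n.choose 2).factorial : ℝ) * (1 - Fs n T k 0) ^ w := by
      rw [Finset.sum_const, nsmul_eq_mul, Finset.card_univ]
      have e : Fin (n.choose 2) ≃ Edge n :=
        (Fintype.equivFinOfCardEq (card_edge n)).symm
      rw [Fintype.card_equiv e, Fintype.card_fin]

theorem exp_neg_le (x : ℝ) (h0 : 0 ≤ x) (h1 : x ≤ 1) : Real.exp (-x) ≤ 1 - x / 2 := by
  have h2 : 1 + x ≤ Real.exp x := by linarith [Real.add_one_le_exp x]
  have h3 : Real.exp (-x) * Real.exp x = 1 := by rw [← Real.exp_add]; simp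
  have h4 : 0 < Real.exp (-x) := Real.exp_pos _
  have h5 : Real.exp (-x) * (1 + x) ≤ 1 := by
    calc Real.exp (-x) * (1 + x) ≤ Real.exp (-x) * Real.exp x :=
          mul_le_mul_of_nonneg_left h2 h4.le
      _ = 1 := h3
  by_contra hcon
  push Not at hcon
  have : (1 - x / 2) * (1 + x) < Real.exp (-x) * (1 + x) :=
    mul_lt_mul_of_pos_right hcon (by linarith)
  nlinarith

theorem pq_ge (n T k q : ℕ) (hn : 0 < n) (hk : 0 < k) (hq : q < k) (hkn : k ≤ n)
    (hT : 2 * n ≤ k * T) : ((q : ℝ) + 1) / (2 * k) ≤ pq n T q := by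
  unfold pq
  have hn' : (0 : ℝ) < n := by exact_mod_cast hn
  have hk' : (0 : ℝ) < k := by exact_mod_cast hk
  have hr1 := rate_le_one n q (by omega)
  have hr0 := rate_nonneg n q
  have h1 : (1 - rate n q) ^ T ≤ Real.exp (-(rate n q * T)) := by
    have : 1 - rate n q ≤ Real.exp (-(rate n q)) := by
      linarith [Real.add_one_le_exp (-(rate n q))]
    calc (1 - rate n q) ^ T ≤ (Real.exp (-(rate n q))) ^ T :=
          pow_le_pow_left₀ (by linarith) this T
      _ = Real.exp (-(rate n q * T)) := by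
        rw [← Real.exp_nat_mul]
        congr 1
        ring
  have h2 : ((q : ℝ) + 1) / k ≤ rate n q * T := by
    unfold rate
    have h3 : (2 : ℝ) * n ≤ k * T := by exact_mod_cast hT
    rw [div_le_iff₀ hk', div_mul_eq_mul_div, div_mul_eq_mul_div, le_div_iff₀ (by positivity)]
    have : ((q : ℝ) + 1) * (2 * n) ≤ ((q : ℝ) + 1) * (k * T) :=
      mul_le_mul_of_nonneg_left h3 (by positivity)
    linarith
  have h3 : Real.exp (-(rate n q * T)) ≤ Real.exp (-(((q : ℝ) + 1) / k)) :=
    Real.exp_le_exp.2 (by linarith)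
  have h4 := exp_neg_le (((q : ℝ) + 1) / k) (by positivity) (by
    rw [div_le_one hk']
    exact_mod_cast hq)
  have h5 : ((q : ℝ) + 1) / (2 * k) = ((q : ℝ) + 1) / k / 2 := by
    field_simp
  rw [h5]
  linarith

theorem Fs_ge (n T k : ℕ) (hn : 0 < n) (hk : 0 < k) (hkn : k ≤ n)
    (hT : 2 * n ≤ k * T) : (1 / 6 : ℝ) ^ k ≤ Fs n T k 0 := by
  have hk' : (0 : ℝ) < k := by exact_mod_cast hk
  have h1 : ∏ q ∈ Finset.range k, (((q : ℝ) + 1) / (2 * k)) ≤ Fs n T k 0 := by
    unfold Fs
    rw [← Finset.range_eq_Ico]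
    apply Finset.prod_le_prod
    · intro i _
      positivity
    · intro i hi
      exact pq_ge n T k i hn hk (Finset.mem_range.1 hi) hkn hT
  refine le_trans ?_ h1
  rw [Finset.prod_div_distrib, Finset.prod_const, Finset.card_range]
  have h2 : ∏ q ∈ Finset.range k, ((q : ℝ) + 1) = (k.factorial : ℝ) := by
    rw [← Finset.prod_range_add_one_eq_factorial]
    push_cast
    rfl
  rw [h2, le_div_iff₀ (by positivity)]
  have h3 := Real.pow_div_factorial_le_exp (k : ℝ) hk'.le k
  rw [div_le_iff₀ (by positivity)] at h3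
  have h4 : Real.exp (k : ℝ) ≤ 3 ^ k := by
    have : Real.exp (k : ℝ) = (Real.exp 1) ^ k := by
      rw [← Real.exp_nat_mul]; simp
    rw [this]
    apply pow_le_pow_left₀ (Real.exp_pos _).le
    have := Real.exp_one_lt_d9
    linarith
  calc (1 / 6 : ℝ) ^ k * (2 * k) ^ k = (1 / 3 : ℝ) ^ k * (k : ℝ) ^ k := by
        rw [← mul_pow, ← mul_pow]; congr 1; ring
    _ ≤ (1 / 3 : ℝ) ^ k * (Real.exp k * k.factorial) :=
        mul_le_mul_of_nonneg_left h3 (by positivity)
    _ ≤ (1 / 3 : ℝ) ^ k * (3 ^ k * k.factorial) := by gcongr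
    _ = k.factorial := by
        rw [← mul_assoc, ← mul_pow]; norm_num

end Pool.Agent.H362R3
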