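import Pool.Agent.H362R3.BTree

/-!
Counting labelled binary trees.
-/

namespace Pool.Agent.H362R3

open Finset

set_option autoImplicit false

namespace BT

open Classical in
/-- all labelled binary trees with `m` nodes -/
noncomputable def allT (α : Type) [Fintype α] : ℕ → Finset (BT α)
  | 0 => {nil}
  | m + 1 => (antidiagonal m).attach.biUnion fun p =>
      ((Finset.univ : Finset α) ×ˢ (allT α p.1.1 ×ˢ allT α p.1.2)).image
        (fun x => node x.1 x.2.1 x.2.2)
  decreasing_by
    · simp_wf; have := mem_antidiagonal.1 p.2; omega
    · simp_wf; have := mem_antidiagonal.1 p.2; omega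

variable {α : Type} [Fintype α] [DecidableEq α]

theorem mem_allT (T : BT α) : T ∈ allT α T.size := by
  induction T with
  | nil => simp [size, allT]
  | node a l r ihl ihr =>
    simp only [size]
    rw [allT]
    simp only [Finset.mem_biUnion, Finset.mem_attach, true_and, Subtype.exists, Finset.mem_image,
      Finset.mem_product, Finset.mem_univ, Prod.exists]
    refine ⟨l.size, r.size, ?_, a, l, r, ⟨ihl, ihr⟩, rfl⟩
    simp

theorem card_allT (m : ℕ) : (allT α m).card ≤ catalan m * (Fintype.card α) ^ m := by
  classical
  induction m using Nat.strong_induction_on with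
  | _ m ih =>
    cases m with
    | zero => simp [allT]
    | succ m =>
      rw [allT]
      refine Finset.card_biUnion_le.trans ?_
      rw [catalan_succ', Finset.sum_mul]
      rw [← Finset.sum_attach (antidiagonal m)]
      apply Finset.sum_le_sum
      intro p _
      refine Finset.card_image_le.trans ?_
      rw [Finset.card_product, Finset.card_product, Finset.card_univ]
      have h3 : p.1.1 + p.1.2 = m := mem_antidiagonal.1 p.2
      have i1 := ih p.1.1 (by omega)
      have i2 := ih p.1.2 (by omega)
      calc Fintype.card α * ((allT α p.1.1).card * (allT α p.1.2).card)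
          ≤ Fintype.card α * ((catalan p.1.1 * (Fintype.card α) ^ p.1.1)
              * (catalan p.1.2 * (Fintype.card α) ^ p.1.2)) :=
            Nat.mul_le_mul_left _ (Nat.mul_le_mul i1 i2)
        _ = catalan p.1.1 * catalan p.1.2 * (Fintype.card α) ^ (p.1.1 + p.1.2 + 1) := by ring
        _ = catalan p.1.1 * catalan p.1.2 * (Fintype.card α) ^ (m + 1) := by rw [h3]

theorem catalan_le (m : ℕ) : catalan m ≤ 4 ^ m := by
  rw [catalan_eq_centralBinom_div]
  refine (Nat.div_le_self _ _).trans ?_
  rw [Nat.centralBinom_eq_two_mul_choose]
  calc (2 * m).choose m ≤ 2 ^ (2 * m) := Nat.choose_le_two_pow _ _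
    _ = 4 ^ m := by rw [pow_mul]; norm_num

theorem card_allT_le (m : ℕ) : (allT α m).card ≤ (4 * Fintype.card α) ^ m := by
  refine (card_allT m).trans ?_
  rw [mul_pow]
  exact Nat.mul_le_mul_right _ (catalan_le m)

end BT

end Pool.Agent.H362R3
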