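import Pool.Agent.H362R3.Stage
import Pool.Agent.H362R3.Count

/-!
The infection strategy growing binary trees.
-/

namespace Pool.Agent.H362R3

open Finset

set_option autoImplicit false

/-- the edges of the complete graph on `n` vertices -/
abbrev Edge (n : ℕ) := {e : Sym2 (Fin n) // ¬ e.IsDiag}

theorem card_edge (n : ℕ) : Fintype.card (Edge n) = n.choose 2 := by
  rw [Sym2.card_subtype_not_diag, Fintype.card_fin]

/-- states -/
abbrev St (n w : ℕ) := Fin w → BT (Fin n)

variable {n w : ℕ}

/-- acceptance with witnesses -/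
def AccAt (k q : ℕ) (τ : St n w) (e : Edge n) (p : Fin w × Fin n × Fin n) : Prop :=
  q < k ∧ e.1 = s(p.2.1, p.2.2) ∧ (τ p.1).size = q + 1 ∧ p.2.1 ∈ (τ p.1).avail ∧
    ∀ r, p.2.2 ∉ (τ r).verts

/-- acceptance -/
def Acc (k q : ℕ) (τ : St n w) (e : Edge n) : Prop := ∃ p, AccAt k q τ e p

open Classical in
/-- extension of a tree -/
noncomputable def extT (T : BT (Fin n)) (x y : Fin n) : BT (Fin n) :=
  if h : ∃ T', BT.Ext T x y T' then h.choose else T

open Classical in
/-- one step -/
noncomputable def stp (k T : ℕ) (i : ℕ) (τ : St n w) (e : Edge n) : St n w :=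
  if h : Acc k (i / T) τ e then
    Function.update τ h.choose.1 (extT (τ h.choose.1) h.choose.2.1 h.choose.2.2) else τ

/-- invariants -/
def Inv (τ : St n w) : Prop :=
  (∀ r, (τ r).Nodup) ∧ (∀ r, (τ r).isNil = false) ∧
    ∀ r r', r ≠ r' → Disjoint (τ r).verts (τ r').verts

theorem stp_not (k T i : ℕ) (τ : St n w) (e : Edge n) (h : ¬ Acc k (i / T) τ e) :
    stp k T i τ e = τ := by
  simp [stp, h]

theorem stp_acc (k T i : ℕ) (τ : St n w) (e : Edge n) (h : Acc k (i / T) τ e) (hI : Inv τ) :
    ∃ p T', AccAt k (i / T) τ e p ∧ BT.Ext (τ p.1) p.2.1 p.2.2 T' ∧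
      stp k T i τ e = Function.update τ p.1 T' := by
  have hspec := h.choose_spec
  have hex : ∃ T', BT.Ext (τ h.choose.1) h.choose.2.1 h.choose.2.2 T' :=
    BT.exists_ext _ (hI.1 _) _ _ hspec.2.2.2.1 (hspec.2.2.2.2 _)
  refine ⟨h.choose, hex.choose, hspec, hex.choose_spec, ?_⟩
  unfold stp
  rw [dif_pos h]
  congr 1
  unfold extT
  rw [dif_pos hex]

theorem inv_stp (k T i : ℕ) (τ : St n w) (e : Edge n) (hI : Inv τ) : Inv (stp k T i τ e) := by
  by_cases h : Acc k (i / T) τ e
  · obtain ⟨p, T', hp, hT', heq⟩ := stp_acc k T i τ e h hI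
    rw [heq]
    obtain ⟨h1, h2, h3⟩ := hI
    obtain ⟨e1, e2, e3, e4, e5⟩ := hT'
    have hfresh := hp.2.2.2.2
    refine ⟨?_, ?_, ?_⟩
    · intro r
      by_cases hr : r = p.1
      · subst hr; simpa using e1
      · simpa [Function.update_of_ne hr] using h1 r
    · intro r
      by_cases hr : r = p.1
      · subst hr
        rw [Function.update_self]
        rcases hnil : T'.isNil with _ | _
        · rfl
        · have := BT.eq_nil_of_isNil hnil
          rw [this] at e2
          simp [BT.size] at e2
      · simpa [Function.update_of_ne hr] using h2 r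
    · intro r r' hrr
      by_cases hr : r = p.1
      · subst hr
        rw [Function.update_self, Function.update_of_ne (Ne.symm hrr), e3,
          Finset.disjoint_insert_left]
        exact ⟨hfresh r', h3 _ _ hrr⟩
      · by_cases hr' : r' = p.1
        · subst hr'
          rw [Function.update_self, Function.update_of_ne hrr, e3,
            Finset.disjoint_insert_right]
          exact ⟨hfresh r, h3 _ _ hrr⟩
        · rw [Function.update_of_ne hr, Function.update_of_ne hr']
          exact h3 _ _ hrr
  · rw [stp_not k T i τ e h]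
    exact hI

/-- initial state -/
def st0 (root : Fin w ↪ Fin n) : St n w := fun r => BT.node (root r) BT.nil BT.nil

theorem inv_st0 (root : Fin w ↪ Fin n) : Inv (st0 root) := by
  refine ⟨?_, ?_, ?_⟩
  · intro r
    simp [st0, BT.Nodup, BT.verts]
  · intro r
    rfl
  · intro r r' h
    simp only [st0, BT.verts, Finset.empty_union]
    rw [Finset.disjoint_insert_left]
    refine ⟨?_, by simp⟩
    simp only [Finset.mem_insert, Finset.notMem_empty, or_false]
    intro h2
    exact h (root.injective h2)

variable {N : ℕ}

/-- the state at time `i` -/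
noncomputable def state (k T : ℕ) (root : Fin w ↪ Fin n) (σ : Fin N ≃ Edge n) (i : ℕ) : St n w :=
  run (stp k T) (st0 root) σ i

theorem state_succ (k T : ℕ) (root : Fin w ↪ Fin n) (σ : Fin N ≃ Edge n) (i : ℕ) (h : i < N) :
    state k T root σ (i + 1) = stp k T i (state k T root σ i) (σ ⟨i, h⟩) :=
  run_succ _ _ _ _ h

theorem state_succ' (k T : ℕ) (root : Fin w ↪ Fin n) (σ : Fin N ≃ Edge n) (i : ℕ) (h : ¬ i < N) :
    state k T root σ (i + 1) = state k T root σ i := by
  simp [state, run, h]

theorem inv_state (k T : ℕ) (root : Fin w ↪ Fin n) (σ : Fin N ≃ Edge n) (i : ℕ) :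
    Inv (state k T root σ i) := by
  induction i with
  | zero => exact inv_st0 root
  | succ i ih =>
    by_cases h : i < N
    · rw [state_succ k T root σ i h]
      exact inv_stp _ _ _ _ _ ih
    · rw [state_succ' k T root σ i h]
      exact ih

theorem size_stp_le (k T i : ℕ) (τ : St n w) (e : Edge n) (hI : Inv τ) (r : Fin w) (M : ℕ)
    (hM : (τ r).size ≤ M) (hq : i / T + 2 ≤ M ∨ k ≤ i / T) : (stp k T i τ e r).size ≤ M := by
  by_cases h : Acc k (i / T) τ e
  · obtain ⟨p, T', hp, hT', heq⟩ := stp_acc k T i τ e h hI
    rw [heq]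
    by_cases hr : r = p.1
    · subst hr
      rw [Function.update_self, hT'.2.1, hp.2.2.1]
      rcases hq with hq | hq
      · omega
      · exact absurd hp.1 (not_lt.2 hq)
    · rw [Function.update_of_ne hr]
      exact hM
  · rw [stp_not k T i τ e h]
    exact hM

/-- sizes are at most `k + 1` -/
theorem size_le_k (k T : ℕ) (root : Fin w ↪ Fin n) (σ : Fin N ≃ Edge n) (i : ℕ) (r : Fin w) :
    (state k T root σ i r).size ≤ k + 1 := by
  induction i with
  | zero =>
    show (BT.size (BT.node (root r) BT.nil BT.nil)) ≤ k + 1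
    simp [BT.size]
  | succ i ih =>
    by_cases h : i < N
    · rw [state_succ k T root σ i h]
      apply size_stp_le k T i _ _ (inv_state k T root σ i) r _ ih
      rcases lt_or_ge (i / T) k with h1 | h1
      · left; omega
      · right; exact h1
    · rw [state_succ' k T root σ i h]
      exact ih

/-- sizes during stage `q` -/
theorem size_le_stage (k T : ℕ) (hT : 0 < T) (root : Fin w ↪ Fin n) (σ : Fin N ≃ Edge n)
    (i : ℕ) (r : Fin w) :
    ((∃ q, i = q * T) → (state k T root σ i r).size ≤ i / T + 1) ∧
      (state k T root σ i r).size ≤ i / T + 2 := by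
  induction i with
  | zero =>
    have : (state k T root σ 0 r).size = 1 := by
      show (BT.size (BT.node (root r) BT.nil BT.nil)) = 1
      simp [BT.size]
    rw [this]
    simp
  | succ i ih =>
    have hle : i / T ≤ (i + 1) / T := Nat.div_le_div_right (Nat.le_succ i)
    have hstep : (state k T root σ (i + 1) r).size ≤ i / T + 2 := by
      by_cases h : i < N
      · rw [state_succ k T root σ i h]
        apply size_stp_le k T i _ _ (inv_state k T root σ i) r _ ih.2
        left; exact le_rfl
      · rw [state_succ' k T root σ i h]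
        exact ih.2
    refine ⟨?_, by omega⟩
    rintro ⟨q, hq⟩
    have h1 : (i + 1) / T = q := by rw [hq, Nat.mul_div_cancel _ hT]
    have hq0 : 0 < q := by
      rcases Nat.eq_zero_or_pos q with h0 | h0
      · subst h0; omega
      · exact h0
    have h2 : i / T + 1 ≤ q := by
      have : i / T < q := by
        rw [Nat.div_lt_iff_lt_mul hT, ← hq]
        exact Nat.lt_succ_self i
      exact this
    rw [h1]
    omega

/-- the counting functions -/
def cnt (s : ℕ) (τ : St n w) : ℕ := (Finset.univ.filter (fun r => (τ r).size = s)).card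

theorem cnt_update (τ : St n w) (r : Fin w) (T' : BT (Fin n)) (s : ℕ) (hr : (τ r).size = s)
    (hT' : T'.size = s + 1) :
    cnt s (Function.update τ r T') + 1 = cnt s τ ∧
      cnt (s + 1) (Function.update τ r T') = cnt (s + 1) τ + 1 := by
  constructor
  · have h1 : (Finset.univ.filter (fun r' => (Function.update τ r T' r').size = s))
        = (Finset.univ.filter (fun r' => (τ r').size = s)).erase r := by
      ext r'
      by_cases h : r' = r
      · subst h
        simp [hT']
      · simp [Function.update_of_ne h, h]
    unfold cnt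
    rw [h1, Finset.card_erase_add_one]
    simp [hr]
  · have h1 : (Finset.univ.filter (fun r' => (Function.update τ r T' r').size = s + 1))
        = insert r (Finset.univ.filter (fun r' => (τ r').size = s + 1)) := by
      ext r'
      by_cases h : r' = r
      · subst h
        simp [hT']
      · simp [Function.update_of_ne h, h]
    unfold cnt
    rw [h1, Finset.card_insert_of_notMem]
    simp [hr]

end Pool.Agent.H362R3
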