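import Pool.Agent.H362R3.Proc

/-!
Bought edges, budget, and the count of acceptable edges.
-/

namespace Pool.Agent.H362R3

open Finset

set_option autoImplicit false

variable {n w N : ℕ}

open Classical in
/-- times at which the strategy buys -/
noncomputable def buysAt (k T : ℕ) (root : Fin w ↪ Fin n) (σ : Fin N ≃ Edge n) :
    Finset (Fin N) :=
  Finset.univ.filter (fun i => Acc k ((i : ℕ) / T) (state k T root σ i) (σ i))

theorem buysAt_congr (k T : ℕ) (root : Fin w ↪ Fin n) (σ σ' : Fin N ≃ Edge n) (i : Fin N)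
    (h : ∀ j ≤ i, σ j = σ' j) : i ∈ buysAt k T root σ ↔ i ∈ buysAt k T root σ' := by
  have h1 : state k T root σ i = state k T root σ' i :=
    run_congr _ _ _ _ _ (fun j hj => h j (le_of_lt hj))
  simp only [buysAt, Finset.mem_filter, Finset.mem_univ, true_and]
  rw [h1, h i le_rfl]

theorem edges_bought (k T : ℕ) (root : Fin w ↪ Fin n) (σ : Fin N ≃ Edge n) (i : ℕ) (r : Fin w)
    (e : Sym2 (Fin n)) (he : e ∈ (state k T root σ i r).edges) :
    ∃ j ∈ buysAt k T root σ, (j : ℕ) < i ∧ (σ j).1 = e := by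
  induction i with
  | zero =>
    change e ∈ (BT.node (root r) BT.nil BT.nil).edges at he
    simp [BT.edges] at he
  | succ i ih =>
    by_cases h : i < N
    · rw [state_succ k T root σ i h] at he
      by_cases hacc : Acc k (i / T) (state k T root σ i) (σ ⟨i, h⟩)
      · obtain ⟨p, T', hp, hT', heq⟩ := stp_acc k T i _ _ hacc (inv_state k T root σ i)
        rw [heq] at he
        by_cases hr : r = p.1
        · subst hr
          rw [Function.update_self, hT'.2.2.2.1, Finset.mem_insert] at he
          rcases he with he | he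
          · refine ⟨⟨i, h⟩, ?_, Nat.lt_succ_self i, ?_⟩
            · simp only [buysAt, Finset.mem_filter, Finset.mem_univ, true_and]
              exact hacc
            · rw [he]; exact hp.2.1
          · obtain ⟨j, h1, h2, h3⟩ := ih he
            exact ⟨j, h1, h2.trans (Nat.lt_succ_self i), h3⟩
        · rw [Function.update_of_ne hr] at he
          obtain ⟨j, h1, h2, h3⟩ := ih he
          exact ⟨j, h1, h2.trans (Nat.lt_succ_self i), h3⟩
      · rw [stp_not _ _ _ _ _ hacc] at he
        obtain ⟨j, h1, h2, h3⟩ := ih he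
        exact ⟨j, h1, h2.trans (Nat.lt_succ_self i), h3⟩
    · rw [state_succ' k T root σ i h] at he
      obtain ⟨j, h1, h2, h3⟩ := ih he
      exact ⟨j, h1, h2.trans (Nat.lt_succ_self i), h3⟩

theorem sum_size_update (τ : St n w) (r : Fin w) (T' : BT (Fin n))
    (hT' : T'.size = (τ r).size + 1) :
    ∑ r', (Function.update τ r T' r').size = ∑ r', (τ r').size + 1 := by
  rw [← Finset.add_sum_erase _ _ (Finset.mem_univ r),
    ← Finset.add_sum_erase (a := r) Finset.univ (fun r' => (τ r').size) (Finset.mem_univ r)]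
  have : ∑ x ∈ Finset.univ.erase r, (Function.update τ r T' x).size
      = ∑ x ∈ Finset.univ.erase r, (τ x).size := by
    apply Finset.sum_congr rfl
    intro x hx
    rw [Function.update_of_ne (Finset.ne_of_mem_erase hx)]
  rw [this, Function.update_self, hT']
  ring

theorem sum_size (k T : ℕ) (root : Fin w ↪ Fin n) (σ : Fin N ≃ Edge n) (i : ℕ) (hi : i ≤ N) :
    ((buysAt k T root σ).filter (fun j : Fin N => (j : ℕ) < i)).card + w
      = ∑ r, (state k T root σ i r).size := by
  induction i with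
  | zero =>
    have : ∀ r : Fin w, (state k T root σ 0 r).size = 1 := by
      intro r
      show (BT.size (BT.node (root r) BT.nil BT.nil)) = 1
      simp [BT.size]
    simp [this]
  | succ i ih =>
    have h : i < N := hi
    have ih' := ih (le_of_lt h)
    rw [state_succ k T root σ i h]
    by_cases hacc : Acc k (i / T) (state k T root σ i) (σ ⟨i, h⟩)
    · obtain ⟨p, T', hp, hT', heq⟩ := stp_acc k T i _ _ hacc (inv_state k T root σ i)
      rw [heq, sum_size_update _ _ _ hT'.2.1, ← ih']
      have h1 : (buysAt k T root σ).filter (fun j : Fin N => (j : ℕ) < i + 1)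
          = insert ⟨i, h⟩ ((buysAt k T root σ).filter (fun j : Fin N => (j : ℕ) < i)) := by
        ext j
        simp only [Finset.mem_filter, Finset.mem_insert]
        constructor
        · rintro ⟨h1, h2⟩
          rcases Nat.lt_succ_iff_lt_or_eq.1 h2 with h3 | h3
          · right; exact ⟨h1, h3⟩
          · left; exact Fin.ext h3
        · rintro (h1 | ⟨h1, h2⟩)
          · subst h1
            refine ⟨?_, Nat.lt_succ_self i⟩
            simp only [buysAt, Finset.mem_filter, Finset.mem_univ, true_and]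
            exact hacc
          · exact ⟨h1, h2.trans (Nat.lt_succ_self i)⟩
      rw [h1, Finset.card_insert_of_notMem]
      · ring
      · simp
    · rw [stp_not _ _ _ _ _ hacc, ← ih']
      congr 2
      ext j
      simp only [Finset.mem_filter]
      constructor
      · rintro ⟨h1, h2⟩
        refine ⟨h1, ?_⟩
        rcases Nat.lt_succ_iff_lt_or_eq.1 h2 with h3 | h3
        · exact h3
        · exfalso
          have : j = ⟨i, h⟩ := Fin.ext h3
          subst this
          simp only [buysAt, Finset.mem_filter, Finset.mem_univ, true_and] at h1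
          exact hacc h1
      · rintro ⟨h1, h2⟩
        exact ⟨h1, h2.trans (Nat.lt_succ_self i)⟩

theorem sum_size_le (k T : ℕ) (root : Fin w ↪ Fin n) (σ : Fin N ≃ Edge n) (i : ℕ) :
    ∑ r, (state k T root σ i r).size ≤ w * (k + 1) := by
  calc ∑ r, (state k T root σ i r).size ≤ ∑ _r : Fin w, (k + 1) :=
        Finset.sum_le_sum (fun r _ => size_le_k k T root σ i r)
    _ = w * (k + 1) := by simp

theorem card_buysAt (k T : ℕ) (root : Fin w ↪ Fin n) (σ : Fin N ≃ Edge n) :
    (buysAt k T root σ).card ≤ w * k := by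
  have h1 := sum_size k T root σ N le_rfl
  have h2 := sum_size_le k T root σ N
  have h3 : (buysAt k T root σ).filter (fun j : Fin N => (j : ℕ) < N) = buysAt k T root σ := by
    rw [Finset.filter_true_of_mem]
    intro j _
    exact j.2
  rw [h3] at h1
  have : w * (k + 1) = w * k + w := by ring
  omega

/-- revealed partners of `x` at time `i` -/
noncomputable def rev (σ : Fin N ≃ Edge n) (i : ℕ) (x : Fin n) : Finset (Fin n) :=
  open Classical in
  Finset.univ.filter (fun y => ∃ h : ¬ (s(x, y) : Sym2 (Fin n)).IsDiag,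
    ((σ.symm ⟨s(x, y), h⟩ : Fin N) : ℕ) < i)

/-- every vertex has at most `n/4` revealed partners -/
def goodAt (σ : Fin N ≃ Edge n) (i : ℕ) : Prop := ∀ x : Fin n, 4 * (rev σ i x).card ≤ n

theorem goodAt_mono (σ : Fin N ≃ Edge n) (i : ℕ) (h : goodAt σ (i + 1)) : goodAt σ i := by
  intro x
  refine le_trans (Nat.mul_le_mul_left _ (Finset.card_le_card ?_)) (h x)
  intro y hy
  simp only [rev, Finset.mem_filter, Finset.mem_univ, true_and] at hy ⊢
  obtain ⟨h1, h2⟩ := hy
  exact ⟨h1, h2.trans (Nat.lt_succ_self i)⟩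

theorem goodAt_swap (σ : Fin N ≃ Edge n) (i j : Fin N) (hij : i ≤ j)
    (h : goodAt ((Equiv.swap i j).trans σ) i) : goodAt σ i := by
  intro x
  refine le_trans (Nat.mul_le_mul_left _ (Finset.card_le_card ?_)) (h x)
  intro y hy
  simp only [rev, Finset.mem_filter, Finset.mem_univ, true_and] at hy ⊢
  obtain ⟨h1, h2⟩ := hy
  refine ⟨h1, ?_⟩
  have h3 : (σ.symm ⟨s(x, y), h1⟩) ≠ i := by
    intro h; rw [h] at h2; exact lt_irrefl _ h2
  have h4 : (σ.symm ⟨s(x, y), h1⟩) ≠ j := by
    intro h; rw [h] at h2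
    exact absurd (Fin.le_def.1 hij) (not_le.2 h2)
  have h5 : ((Equiv.swap i j).trans σ).symm ⟨s(x, y), h1⟩ = σ.symm ⟨s(x, y), h1⟩ := by
    simp [Equiv.swap_apply_of_ne_of_ne h3 h4]
  rw [h5]
  exact h2

/-- the count of acceptable unrevealed edges -/
theorem count_acc (k q : ℕ) (hq : q < k) (τ : St n w) (hI : Inv τ) (σ : Fin N ≃ Edge n)
    (i : Fin N) (hgood : goodAt σ i) (hsize : 4 * ∑ r, (τ r).size ≤ n) :
    cnt (q + 1) τ * (q + 2) * n ≤ 4 * Nat.card {j : Fin N // i ≤ j ∧ Acc k q τ (σ j)} := by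
  classical
  -- the vertices already touched
  set tch : Finset (Fin n) := Finset.univ.biUnion (fun r => (τ r).verts) with htch
  have htcard : 4 * tch.card ≤ n := by
    have h1 : tch.card ≤ ∑ r, (τ r).verts.card := Finset.card_biUnion_le
    have h2 : ∑ r, (τ r).verts.card = ∑ r, (τ r).size :=
      Finset.sum_congr rfl (fun r _ => BT.card_verts _ (hI.1 r))
    omega
  set Y : Fin n → Finset (Fin n) := fun x => Finset.univ \ (tch ∪ rev σ i x) with hY
  have hYcard : ∀ x, n ≤ 2 * (Y x).card := by
    intro x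
    have h1 : (Y x).card = n - (tch ∪ rev σ i x).card := by
      rw [hY]
      simp only
      rw [Finset.card_sdiff_of_subset (Finset.subset_univ _), Finset.card_univ, Fintype.card_fin]
    have h2 : (tch ∪ rev σ i x).card ≤ tch.card + (rev σ i x).card := Finset.card_union_le _ _
    have h3 := hgood x
    omega
  set TT : Finset (Σ _ : Fin w, Σ _ : Fin n, Fin n) :=
    (Finset.univ.filter (fun r : Fin w => (τ r).size = q + 1)).sigma
      (fun r => ((τ r).avail).sigma (fun x => Y x)) with hTT
  have hTTcard : cnt (q + 1) τ * (q + 2) * n ≤ 4 * TT.card := by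
    rw [hTT, Finset.card_sigma, Finset.mul_sum]
    have h1 : ∀ r ∈ Finset.univ.filter (fun r : Fin w => (τ r).size = q + 1),
        (q + 2) * n ≤ 4 * (((τ r).avail).sigma (fun x => Y x)).card := by
      intro r hr
      have hr' : (τ r).size = q + 1 := (Finset.mem_filter.1 hr).2
      rw [Finset.card_sigma]
      have h2 : (τ r).avail.card * n ≤ 2 * ∑ x ∈ (τ r).avail, (Y x).card := by
        rw [Finset.mul_sum]
        calc (τ r).avail.card * n = ∑ _x ∈ (τ r).avail, n := by simp
          _ ≤ ∑ x ∈ (τ r).avail, 2 * (Y x).card := Finset.sum_le_sum (fun x _ => hYcard x)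
      have h3 := BT.card_avail (τ r) (hI.1 r) (hI.2.1 r)
      rw [hr'] at h3
      calc (q + 2) * n ≤ (2 * (τ r).avail.card) * n := Nat.mul_le_mul_right _ (by omega)
        _ = 2 * ((τ r).avail.card * n) := by ring
        _ ≤ 2 * (2 * ∑ x ∈ (τ r).avail, (Y x).card) := Nat.mul_le_mul_left _ h2
        _ = 4 * ∑ x ∈ (τ r).avail, (Y x).card := by ring
    calc cnt (q + 1) τ * (q + 2) * n
        = ∑ _r ∈ Finset.univ.filter (fun r : Fin w => (τ r).size = q + 1), (q + 2) * n := by
          rw [Finset.sum_const, smul_eq_mul]; unfold cnt; ring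
      _ ≤ _ := Finset.sum_le_sum h1
  refine hTTcard.trans (Nat.mul_le_mul_left _ ?_)
  -- the injection
  have hmem : ∀ p ∈ TT, (τ p.1).size = q + 1 ∧ p.2.1 ∈ (τ p.1).avail ∧
      (∀ r, p.2.2 ∉ (τ r).verts) ∧ p.2.2 ∉ rev σ i p.2.1 := by
    intro p hp
    rw [hTT, Finset.mem_sigma, Finset.mem_sigma, Finset.mem_filter] at hp
    obtain ⟨⟨_, h1⟩, h2, h3⟩ := hp
    simp only [hY, htch, Finset.mem_sdiff, Finset.mem_univ, true_and, Finset.mem_union,
      Finset.mem_biUnion, not_or, not_exists] at h3
    exact ⟨h1, h2, fun r => h3.1 r, h3.2⟩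
  have hnd : ∀ p ∈ TT, ¬ (s(p.2.1, p.2.2) : Sym2 (Fin n)).IsDiag := by
    intro p hp hdiag
    rw [Sym2.mk_isDiag_iff] at hdiag
    obtain ⟨_, h2, h3, _⟩ := hmem p hp
    apply h3 p.1
    rw [← hdiag]
    exact BT.avail_subset _ h2
  rw [Nat.card_eq_fintype_card, Fintype.card_subtype]
  have hne : Nonempty (Fin N) := ⟨i⟩
  let f : (Σ _ : Fin w, Σ _ : Fin n, Fin n) → Fin N := fun p =>
    if h : ¬ (s(p.2.1, p.2.2) : Sym2 (Fin n)).IsDiag then σ.symm ⟨s(p.2.1, p.2.2), h⟩ else i
  have hf : ∀ p (hp : p ∈ TT), f p = σ.symm ⟨s(p.2.1, p.2.2), hnd p hp⟩ := by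
    intro p hp
    simp only [f]
    rw [dif_pos (hnd p hp)]
  apply Finset.card_le_card_of_injOn f
  · intro p hp
    have hp' : p ∈ TT := hp
    obtain ⟨h1, h2, h3, h4⟩ := hmem p hp'
    simp only [Finset.coe_filter, Finset.mem_univ, true_and, Set.mem_ofPred_eq]
    rw [hf p hp']
    constructor
    · rw [Fin.le_def]
      by_contra hcon
      apply h4
      simp only [rev, Finset.mem_filter, Finset.mem_univ, true_and]
      exact ⟨hnd p hp', not_le.1 hcon⟩
    · rw [Equiv.apply_symm_apply]
      exact ⟨(p.1, p.2.1, p.2.2), hq, rfl, h1, h2, h3⟩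
  · intro p hp p' hp' hpp
    have hp1 : p ∈ TT := hp
    have hp1' : p' ∈ TT := hp'
    rw [hf p hp1, hf p' hp1'] at hpp
    have h5 := σ.symm.injective hpp
    rw [Subtype.mk.injEq, Sym2.eq_iff] at h5
    obtain ⟨h1, h2, h3, h4⟩ := hmem p hp1
    obtain ⟨h1', h2', h3', h4'⟩ := hmem p' hp1'
    rcases h5 with ⟨hx, hy⟩ | ⟨hx, hy⟩
    · have hr : p.1 = p'.1 := by
        by_contra hne
        have := hI.2.2 _ _ hne
        exact Finset.disjoint_left.1 this (BT.avail_subset _ h2)
          (by rw [hx]; exact BT.avail_subset _ h2')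
      obtain ⟨r, x, y⟩ := p
      obtain ⟨r', x', y'⟩ := p'
      simp only at hr hx hy
      subst hr hx hy
      rfl
    · exfalso
      apply h3' p.1
      rw [← hx]
      exact BT.avail_subset _ h2

end Pool.Agent.H362R3
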