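import Pool.Agent.H362R3.Abs

/-!
The one-stage supermartingale estimate.
-/

namespace Pool.Agent.H362R3

open Finset

set_option autoImplicit false

theorem bern (y u : ℝ) (hu : 0 ≤ u) (huy : u ≤ y) (R : ℕ) :
    y ^ R * (y - (R + 1) * u) ≤ (y - u) ^ (R + 1) := by
  induction R with
  | zero => simp
  | succ R ih =>
    have hy : 0 ≤ y := hu.trans huy
    have h1 : (y - u) * (y ^ R * (y - (R + 1) * u)) ≤ (y - u) * (y - u) ^ (R + 1) :=
      mul_le_mul_of_nonneg_left ih (by linarith)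
    have h2 : 0 ≤ y ^ R * ((R + 1) * u ^ 2) := by positivity
    have h3 : y ^ (R + 1) * (y - ((R + 1 : ℕ) + 1) * u)
        = (y - u) * (y ^ R * (y - (R + 1) * u)) - y ^ R * ((R + 1) * u ^ 2) := by
      push_cast
      ring
    rw [h3]
    calc _ ≤ (y - u) * (y ^ R * (y - (R + 1) * u)) := by linarith
      _ ≤ (y - u) * (y - u) ^ (R + 1) := h1
      _ = (y - u) ^ (R + 1 + 1) := by ring

variable {E : Type} [Fintype E] [DecidableEq E] {N : ℕ} {S : Type}

/-- the potential. -/
noncomputable def pot (step : ℕ → S → E → S) (s0 : S) (R D : S → ℕ)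
    (good : (Fin N ≃ E) → ℕ → Prop) (F a : ℝ) (i m : ℕ) (σ : Fin N ≃ E) : ℝ :=
  open Classical in
  if good σ i then (1 - F * (1 - (1 - a) ^ m)) ^ (R (run step s0 σ i))
    * (1 - F) ^ (D (run step s0 σ i)) else 0

theorem pot_step (step : ℕ → S → E → S) (s0 : S) (R D : S → ℕ)
    (good : (Fin N ≃ E) → ℕ → Prop) (F a : ℝ) (hF0 : 0 ≤ F) (hF1 : F ≤ 1) (ha0 : 0 ≤ a)
    (ha1 : a ≤ 1) (i : Fin N) (m : ℕ) (acc : S → E → Prop)
    (hacc : ∀ (σ : Fin N ≃ E) e, acc (run step s0 σ i) e →
      R (step i (run step s0 σ i) e) + 1 = R (run step s0 σ i) ∧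
      D (step i (run step s0 σ i) e) = D (run step s0 σ i) + 1)
    (hnot : ∀ (σ : Fin N ≃ E) e, ¬ acc (run step s0 σ i) e →
      R (step i (run step s0 σ i) e) = R (run step s0 σ i) ∧
      D (step i (run step s0 σ i) e) = D (run step s0 σ i))
    (hmono : ∀ σ : Fin N ≃ E, good σ (i + 1) → good σ i)
    (hsw : ∀ (σ : Fin N ≃ E) (j : Fin N), i ≤ j → good ((Equiv.swap i j).trans σ) i → good σ i)
    (hcount : ∀ σ : Fin N ≃ E, good σ i →
      a * (R (run step s0 σ i) : ℝ) * ((N - (i : ℕ) : ℕ) : ℝ) ≤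
        (Nat.card {j : Fin N // i ≤ j ∧ acc (run step s0 σ i) (σ j)} : ℝ)) :
    ∑ σ, pot step s0 R D good F a (i + 1) m σ ≤ ∑ σ, pot step s0 R D good F a i (m + 1) σ := by
  classical
  apply sum_le_of_step i
  intro σ
  have hpow0 : 0 ≤ (1 - a) ^ m := pow_nonneg (by linarith) m
  have hpow1 : (1 - a) ^ m ≤ 1 := pow_le_one₀ (by linarith) (by linarith)
  set y : ℝ := 1 - F * (1 - (1 - a) ^ m) with hy
  set z : ℝ := 1 - F with hz
  have hz0 : 0 ≤ z := by rw [hz]; linarith
  have hyz : z ≤ y := by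
    rw [hy, hz]
    nlinarith
  have hy0 : 0 ≤ y := hz0.trans hyz
  have hynext : 1 - F * (1 - (1 - a) ^ (m + 1)) = y - a * (y - z) := by
    rw [hy, hz, pow_succ]
    ring
  by_cases hg : good σ i
  · -- the good case
    set s := run step s0 σ i with hs
    have hterm : ∀ j ∈ Finset.Ici i, pot step s0 R D good F a (i + 1) m ((Equiv.swap i j).trans σ)
        ≤ y ^ (R (step i s (σ j))) * z ^ (D (step i s (σ j))) := by
      intro j hj
      have hij : i ≤ j := Finset.mem_Ici.1 hj
      unfold pot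
      rw [run_swap_succ step s0 σ i j hij]
      split_ifs with h
      · exact le_rfl
      · positivity
    refine (Finset.sum_le_sum hterm).trans ?_
    have hpot : pot step s0 R D good F a i (m + 1) σ
        = (y - a * (y - z)) ^ (R s) * z ^ (D s) := by
      unfold pot
      rw [if_pos hg, hynext]
    rw [hpot]
    -- split the sum
    have hcardM : ((Finset.Ici i).card : ℝ) = ((N - (i : ℕ) : ℕ) : ℝ) := by
      rw [Fin.card_Ici]
    set A : Finset (Fin N) := (Finset.Ici i).filter (fun j => acc s (σ j)) with hA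
    have hAcard : (Nat.card {j : Fin N // i ≤ j ∧ acc s (σ j)} : ℝ) = (A.card : ℝ) := by
      rw [Nat.card_eq_fintype_card, Fintype.card_subtype]
      congr 2
      ext j
      simp [hA]
    have hcnt := hcount σ hg
    rw [← hs, hAcard] at hcnt
    rw [← Finset.sum_filter_add_sum_filter_not (Finset.Ici i) (fun j => acc s (σ j))]
    have hAc : (((Finset.Ici i).filter (fun j => ¬ acc s (σ j))).card : ℝ)
        = ((N - (i : ℕ) : ℕ) : ℝ) - (A.card : ℝ) := by
      have := Finset.card_filter_add_card_filter_not (s := Finset.Ici i) (fun j => acc s (σ j))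
      rw [← hcardM, ← this, hA]
      push_cast
      ring
    have hnotsum : ∑ j ∈ (Finset.Ici i).filter (fun j => ¬ acc s (σ j)),
        y ^ (R (step i s (σ j))) * z ^ (D (step i s (σ j)))
        = (((N - (i : ℕ) : ℕ) : ℝ) - (A.card : ℝ)) * (y ^ (R s) * z ^ (D s)) := by
      rw [← hAc, ← nsmul_eq_mul, ← Finset.sum_const]
      apply Finset.sum_congr rfl
      intro j hj
      have hj2 := (Finset.mem_filter.1 hj).2
      obtain ⟨h1, h2⟩ := hnot σ (σ j) hj2
      rw [← hs] at h1 h2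
      rw [h1, h2]
    rw [hnotsum]
    rcases Nat.eq_zero_or_pos (R s) with hR | hR
    · have hAe : A = ∅ := by
        rw [Finset.eq_empty_iff_forall_notMem]
        intro j hj
        have hj2 := (Finset.mem_filter.1 hj).2
        obtain ⟨h1, _⟩ := hacc σ (σ j) hj2
        rw [← hs] at h1
        omega
      rw [← hA, hAe, hR]
      simp
    · obtain ⟨R', hR'⟩ : ∃ R', R s = R' + 1 := ⟨R s - 1, by omega⟩
      have haccsum : ∑ j ∈ (Finset.Ici i).filter (fun j => acc s (σ j)),
          y ^ (R (step i s (σ j))) * z ^ (D (step i s (σ j)))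
          = (A.card : ℝ) * (y ^ R' * z ^ (D s + 1)) := by
        rw [← hA, ← nsmul_eq_mul, ← Finset.sum_const]
        apply Finset.sum_congr rfl
        intro j hj
        have hj2 := (Finset.mem_filter.1 hj).2
        obtain ⟨h1, h2⟩ := hacc σ (σ j) hj2
        rw [← hs] at h1 h2
        rw [h2]
        have : R (step i s (σ j)) = R' := by omega
        rw [this]
      rw [haccsum, hR']
      rw [hR'] at hcnt
      set M : ℝ := ((N - (i : ℕ) : ℕ) : ℝ) with hM
      have hM0 : 0 ≤ M := Nat.cast_nonneg _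
      have hb := bern y (a * (y - z)) (by nlinarith) (by nlinarith) R'
      have h1 : (A.card : ℝ) * (y ^ R' * z ^ (D s + 1))
          + (M - (A.card : ℝ)) * (y ^ (R' + 1) * z ^ (D s))
          = z ^ (D s) * y ^ R' * (M * y - (A.card : ℝ) * (y - z)) := by ring
      rw [h1]
      have h2 : M * y - (A.card : ℝ) * (y - z) ≤ M * (y - (R' + 1) * (a * (y - z))) := by
        have : a * ((R' : ℝ) + 1) * M * (y - z) ≤ (A.card : ℝ) * (y - z) := by
          apply mul_le_mul_of_nonneg_right _ (by linarith)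
          have := hcnt
          push_cast at this
          exact this
        nlinarith
      calc z ^ (D s) * y ^ R' * (M * y - (A.card : ℝ) * (y - z))
          ≤ z ^ (D s) * y ^ R' * (M * (y - (R' + 1) * (a * (y - z)))) :=
            mul_le_mul_of_nonneg_left h2 (by positivity)
        _ = z ^ (D s) * M * (y ^ R' * (y - (R' + 1) * (a * (y - z)))) := by ring
        _ ≤ z ^ (D s) * M * (y - a * (y - z)) ^ (R' + 1) :=
            mul_le_mul_of_nonneg_left hb (by positivity)
        _ = M * ((y - a * (y - z)) ^ (R' + 1) * z ^ (D s)) := by ring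
  · have h0 : pot step s0 R D good F a i (m + 1) σ = 0 := by
      unfold pot
      rw [if_neg hg]
    rw [h0, mul_zero]
    apply Finset.sum_nonpos
    intro j hj
    have hij : i ≤ j := Finset.mem_Ici.1 hj
    unfold pot
    rw [if_neg]
    intro h
    exact hg (hsw σ j hij (hmono _ h))

/-- A whole stage. -/
theorem pot_stage (step : ℕ → S → E → S) (s0 : S) (R D : S → ℕ)
    (good : (Fin N ≃ E) → ℕ → Prop) (F a : ℝ) (hF0 : 0 ≤ F) (hF1 : F ≤ 1) (ha0 : 0 ≤ a)
    (ha1 : a ≤ 1) (acc : S → E → Prop) (m : ℕ) : ∀ i0 : ℕ, i0 + m ≤ N →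
    (∀ i : ℕ, i0 ≤ i → i < i0 + m → ∀ (σ : Fin N ≃ E) e, acc (run step s0 σ i) e →
      R (step i (run step s0 σ i) e) + 1 = R (run step s0 σ i) ∧
      D (step i (run step s0 σ i) e) = D (run step s0 σ i) + 1) →
    (∀ i : ℕ, i0 ≤ i → i < i0 + m → ∀ (σ : Fin N ≃ E) e, ¬ acc (run step s0 σ i) e →
      R (step i (run step s0 σ i) e) = R (run step s0 σ i) ∧
      D (step i (run step s0 σ i) e) = D (run step s0 σ i)) →
    (∀ (σ : Fin N ≃ E) (i : ℕ), good σ (i + 1) → good σ i) →
    (∀ (σ : Fin N ≃ E) (i j : Fin N), i ≤ j → good ((Equiv.swap i j).trans σ) i → good σ i) →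
    (∀ i : Fin N, i0 ≤ i → (i : ℕ) < i0 + m → ∀ σ : Fin N ≃ E, good σ i →
      a * (R (run step s0 σ i) : ℝ) * ((N - (i : ℕ) : ℕ) : ℝ) ≤
        (Nat.card {j : Fin N // i ≤ j ∧ acc (run step s0 σ i) (σ j)} : ℝ)) →
    ∑ σ, pot step s0 R D good F a (i0 + m) 0 σ ≤ ∑ σ, pot step s0 R D good F a i0 m σ := by
  induction m with
  | zero =>
    intro i0 _ _ _ _ _ _
    simp
  | succ m ih =>
    intro i0 hN h1 h2 h3 h4 h5
    have hi0 : i0 < N := by omega
    have e1 : i0 + (m + 1) = (i0 + 1) + m := by ring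
    rw [e1]
    refine (ih (i0 + 1) (by omega) (fun i hi hi' => h1 i (by omega) (by omega))
      (fun i hi hi' => h2 i (by omega) (by omega)) h3 h4
      (fun i hi hi' => h5 i (by omega) (by omega))).trans ?_
    exact pot_step step s0 R D good F a hF0 hF1 ha0 ha1 ⟨i0, hi0⟩ m acc
      (h1 i0 le_rfl (by omega)) (h2 i0 le_rfl (by omega)) (fun σ => h3 σ i0)
      (fun σ j hj => h4 σ ⟨i0, hi0⟩ j hj) (h5 ⟨i0, hi0⟩ le_rfl (by simp))

end Pool.Agent.H362R3
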